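import Mathlib
import Pool.Agent.P.MP_f3d782_pr.Count

set_option autoImplicit false
set_option linter.unusedSectionVars false
set_option linter.unusedSimpArgs false

namespace Pool.Agent.P.MP_f3d782_pr.Q2

open Finset Pool.Agent.P.MP_f3d782_pr

variable {α : Type}

theorem S_sum {ι : Type} (s : Finset ι) (x : List α) (h : ι → List α → ℕ) :
    S x (fun y => ∑ a ∈ s, h a y) = ∑ a ∈ s, S x (h a) := by
  induction x generalizing h with
  | nil => simp [S]
  | cons c x ih => simp only [S, sum_add_distrib]; rw [ih (fun a y => h a (c :: y))]

theorem S_zero (x : List α) : S x (fun _ => 0) = 0 := by simp [S_const]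

variable [DecidableEq α]

theorem B_rep (u v : List α) (a : α) : B (u ++ a :: a :: v) = 0 :=
  B_of_not_pr fun h => by
    have := h.right_of_append
    simp [List.isChain_cons_cons] at this

theorem B_rev (x : List α) : B x.reverse = B x := by
  induction hn : x.length generalizing x with
  | zero => rw [List.length_eq_zero_iff.mp hn]; rfl
  | succ n ih =>
    have hx : x ≠ [] := by rintro rfl; simp at hn
    have hp : Pr x.reverse ↔ Pr x := by
      unfold Pr
      rw [List.isChain_reverse]
      exact ⟨fun h => h.imp fun _ _ h => h.symm, fun h => h.imp fun _ _ h => h.symm⟩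
    rw [B_eq hx, B_eq (by simpa using hx), S_reverse]
    simp only [hp]
    split_ifs
    · exact S_congr fun y hy => ih y (by omega)
    · rfl

theorem S_B {x : List α} (hx : x ≠ []) (hp : Pr x) : S x B = B x := by
  rw [B_eq hx, if_pos hp]

variable [Fintype α]

theorem sum_cons {k : ℕ} (hk : Fintype.card α = k + 2) (y : List α) :
    ∑ a, B (a :: y) = (y.length * k + k + 2) * B y := by
  induction hn : y.length generalizing y with
  | zero =>
    rw [List.length_eq_zero_iff.mp hn]
    have : ∀ a : α, B [a] = 1 := fun a => by simp [B, Bn, S]
    simp [this, hk]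
  | succ n ih =>
    obtain ⟨b, t, rfl⟩ := List.exists_cons_of_length_eq_add_one hn
    by_cases hp : Pr (b :: t)
    swap
    · rw [B_of_not_pr hp, sum_eq_zero fun a _ => B_of_not_pr fun h => hp h.tail]
      simp
    have key : ∀ a : α, B (a :: b :: t) + (if a = b then B (b :: t) else 0) =
        (if b ≠ a then 1 else 0) * B (b :: t) + S (b :: t) (fun z => B (a :: z)) := by
      intro a
      by_cases h : a = b
      · subst h
        have h0 : ∀ z, B (a :: a :: z) = 0 := fun z => B_rep [] z a
        simp [S, h0, S_zero]
      · rw [B_eq (by simp), if_pos (List.isChain_cons_cons.mpr ⟨h, hp⟩), if_neg h,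
          if_pos (Ne.symm h)]
        simp [S]
    have h1 := sum_congr rfl fun a (_ : a ∈ (univ : Finset α)) => key a
    rw [sum_add_distrib, sum_add_distrib, ← sum_mul, card_ne_one, hk, ← S_sum,
      S_congr (h' := fun z => (n * k + k + 2) * B z) (fun z hz => ih z (by
        simp at hz hn; omega)), S_mul, S_B (by simp) hp] at h1
    simp only [sum_ite_eq', mem_univ, if_true] at h1
    have e : k + 2 - 1 = k + 1 := by omega
    rw [e] at h1
    nlinarith

theorem sum_snoc {k : ℕ} (hk : Fintype.card α = k + 2) (y : List α) :
    ∑ a, B (y ++ [a]) = (y.length * k + k + 2) * B y := by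
  have := sum_cons hk y.reverse
  rw [B_rev, List.length_reverse] at this
  rw [← this]
  refine sum_congr rfl fun a _ => ?_
  rw [← B_rev]; simp

theorem gap_one (hk : Fintype.card α = 2 + 2) (x y : List α) :
    ∑ a, B (x ++ a :: y) = 2 * (x.length + y.length + 2).choose (x.length + 1) * B x * B y := by
  induction hn : x.length + y.length generalizing x y with
  | zero =>
    obtain rfl : x = [] := List.length_eq_zero_iff.mp (by omega)
    obtain rfl : y = [] := List.length_eq_zero_iff.mp (by omega)
    simpa using sum_cons hk []
  | succ n ih =>
    rcases List.eq_nil_or_concat x with rfl | ⟨x', c, rfl⟩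
    · have := sum_cons hk y
      simp only [List.nil_append, List.length_nil, zero_add, Nat.choose_one_right, B_nil] at hn ⊢
      rw [this, hn]; ring
    rw [List.concat_eq_append] at hn ⊢
    cases y with
    | nil =>
      have := sum_snoc hk (x' ++ [c])
      simp only [List.length_nil, add_zero, B_nil] at hn ⊢
      rw [this, hn, Nat.choose_succ_self_right]; ring
    | cons d y' =>
      by_cases hx : Pr (x' ++ [c])
      swap
      · rw [B_of_not_pr hx, sum_eq_zero fun a _ => B_of_not_pr fun h => hx h.left_of_append]
        simp
      by_cases hy : Pr (d :: y')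
      swap
      · rw [B_of_not_pr hy, sum_eq_zero fun a _ => B_of_not_pr fun h => hy h.right_of_append.tail]
        simp
      have key : ∀ a : α, B (x' ++ [c] ++ a :: d :: y') + (if a = c then B (x' ++ c :: d :: y') else 0)
          + (if a = d then B (x' ++ c :: d :: y') else 0) =
          (if c ≠ a ∧ a ≠ d then 1 else 0) * B (x' ++ c :: d :: y') +
          S (x' ++ [c]) (fun z => B (z ++ a :: d :: y')) +
          S (d :: y') (fun z => B (x' ++ [c] ++ a :: z)) := by
        intro a
        have r1 : ∀ z w, B (z ++ a :: a :: w) = 0 := fun z w => B_rep z w a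
        have r2 : ∀ z e w, B (z ++ e :: a :: a :: w) = 0 := fun z e w => by
          simpa using B_rep (z ++ [e]) w a
        by_cases h1 : a = c
        · subst h1
          by_cases h2 : a = d
          · subst h2
            simp [S, S_append, r1, r2, S_zero]
          · simp [S, S_append, r1, h2, S_zero]
        · by_cases h2 : a = d
          · subst h2
            simp [S, S_append, r1, r2, h1, S_zero]
          · have hp : Pr (x' ++ [c] ++ a :: d :: y') := by
              rw [List.append_assoc, List.singleton_append]
              exact List.isChain_append_cons_cons.mpr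
                ⟨hx, Ne.symm h1, List.isChain_cons_cons.mpr ⟨h2, hy⟩⟩
            rw [B_eq (by simp), if_pos hp, if_neg h1, if_neg h2, if_pos ⟨Ne.symm h1, h2⟩, S_append]
            simp only [S, List.append_assoc, List.singleton_append]
            ring
      have h1 := sum_congr rfl fun a (_ : a ∈ (univ : Finset α)) => key a
      have l1 : (x' ++ [c]).length = x'.length + 1 := by simp
      have l2 : (d :: y').length = y'.length + 1 := by simp
      rw [l1, l2] at hn
      rw [sum_add_distrib, sum_add_distrib, sum_add_distrib, sum_add_distrib, ← sum_mul, ← S_sum,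
        ← S_sum, S_congr (x := x' ++ [c])
          (h' := fun z => (2 * (n + 2).choose (x'.length + 1) * B (d :: y')) * B z) (fun z hz => by
            rw [ih z (d :: y') (by simp at hz ⊢; omega), show z.length = x'.length by
              simp at hz; omega]; ring),
        S_congr (x := d :: y')
          (h' := fun z => (2 * (n + 2).choose (x'.length + 1 + 1) * B (x' ++ [c])) * B z)
          (fun z hz => by rw [ih (x' ++ [c]) z (by simp at hz ⊢; omega), l1]),
        S_mul, S_mul, S_B (by simp) hx, S_B (by simp) hy] at h1
      simp only [sum_ite_eq', mem_univ, if_true] at h1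
      have h2 : (∑ a : α, if c ≠ a ∧ a ≠ d then 1 else 0) * B (x' ++ c :: d :: y') =
          2 * B (x' ++ c :: d :: y') := by
        by_cases hcd : c = d
        · subst hcd; simp [B_rep]
        · rw [card_ne_two hcd, hk]
      rw [h2] at h1
      rw [l1, show n + 1 + 2 = (n + 2) + 1 by omega, Nat.choose_succ_succ']
      nlinarith

theorem gap_two (hk : Fintype.card α = 1 + 2) (x y : List α) :
    ∑ a, ∑ b, B (x ++ a :: b :: y) =
      2 * (x.length + y.length + 4).choose (x.length + 2) * B x * B y := by
  have ch : ∀ m : ℕ, 2 * (m + 4).choose 2 = (m + 4) * (m + 3) := fun m => by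
    rw [Nat.choose_two_right, Nat.mul_div_cancel' (by
      simpa using (Nat.even_mul_pred_self (m + 4)).two_dvd)]
    rfl
  have left : ∀ y : List α, ∑ a, ∑ b, B (a :: b :: y) = 2 * (y.length + 4).choose 2 * B y := by
    intro y
    rw [sum_comm]
    simp only [sum_cons hk, List.length_cons, ← mul_sum, ch]
    ring
  induction hn : x.length + y.length generalizing x y with
  | zero =>
    obtain rfl : x = [] := List.length_eq_zero_iff.mp (by omega)
    obtain rfl : y = [] := List.length_eq_zero_iff.mp (by omega)
    simpa using left []
  | succ n ih =>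
    rcases List.eq_nil_or_concat x with rfl | ⟨x', c, rfl⟩
    · simp only [List.nil_append, List.length_nil, zero_add, B_nil] at hn ⊢
      rw [left, hn]; ring
    rw [List.concat_eq_append] at hn ⊢
    cases y with
    | nil =>
      simp only [List.length_nil, add_zero, B_nil] at hn ⊢
      have e : ∀ a b : α, x' ++ [c] ++ [a, b] = (x' ++ [c] ++ [a]) ++ [b] := fun a b => by simp
      simp only [e, sum_snoc hk, ← mul_sum, List.length_append (as := x' ++ [c]), hn,
        List.length_singleton]
      have := ch (n + 1)
      rw [← Nat.choose_symm (by omega : 2 ≤ n + 1 + 4), show n + 1 + 4 - 2 = n + 1 + 2 by omega]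
        at this
      rw [this]; ring
    | cons d y' =>
      by_cases hx : Pr (x' ++ [c])
      swap
      · rw [B_of_not_pr hx, sum_eq_zero fun a _ => sum_eq_zero fun b _ =>
          B_of_not_pr fun h => hx h.left_of_append]
        simp
      by_cases hy : Pr (d :: y')
      swap
      · rw [B_of_not_pr hy, sum_eq_zero fun a _ => sum_eq_zero fun b _ =>
          B_of_not_pr fun h => hy h.right_of_append.tail.tail]
        simp
      have key : ∀ a b : α, B (x' ++ [c] ++ a :: b :: d :: y') +
          (if a = c then B (x' ++ c :: b :: d :: y') else 0)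
          + (if b = d then B (x' ++ c :: a :: d :: y') else 0) =
          (if c ≠ a ∧ a ≠ b then 1 else 0) * B (x' ++ c :: b :: d :: y') +
          (if d ≠ b ∧ b ≠ a then 1 else 0) * B (x' ++ c :: a :: d :: y') +
          S (x' ++ [c]) (fun z => B (z ++ a :: b :: d :: y')) +
          S (d :: y') (fun z => B (x' ++ [c] ++ a :: b :: z)) := by
        intro a b
        have r1 : ∀ z (e : α) w, B (z ++ e :: e :: w) = 0 := fun z e w => B_rep z w e
        have r2 : ∀ z (e f : α) w, B (z ++ e :: f :: f :: w) = 0 := fun z e f w => by
          simpa using B_rep (z ++ [e]) w f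
        have r3 : ∀ z (e g f : α) w, B (z ++ e :: g :: f :: f :: w) = 0 := fun z e g f w => by
          simpa using B_rep (z ++ [e, g]) w f
        by_cases h1 : a = c
        · subst h1
          by_cases h2 : b = d
          · subst h2
            by_cases h3 : a = b
            · subst h3; simp [S, S_append, r1, r2, S_zero]
            · simp [S, S_append, r1, r2, r3, S_zero]
          · simp [S, S_append, r1, r2, h2, S_zero]
        · by_cases h2 : b = d
          · subst h2
            simp [S, S_append, r1, r2, r3, h1, S_zero]
          · by_cases h3 : a = b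
            · subst h3
              simp [S, S_append, r1, r2, h1, h2, S_zero]
            · have hp : Pr (x' ++ [c] ++ a :: b :: d :: y') := by
                rw [List.append_assoc, List.singleton_append]
                exact List.isChain_append_cons_cons.mpr ⟨hx, Ne.symm h1,
                  List.isChain_cons_cons.mpr ⟨h3, List.isChain_cons_cons.mpr ⟨h2, hy⟩⟩⟩
              rw [B_eq (by simp), if_pos hp, if_neg h1, if_neg h2, if_pos ⟨Ne.symm h1, h3⟩,
                if_pos ⟨Ne.symm h2, Ne.symm h3⟩, S_append]
              simp only [S, List.append_assoc, List.singleton_append]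
              ring
      have h1 := sum_congr rfl fun a (_ : a ∈ (univ : Finset α)) =>
        sum_congr rfl fun b (_ : b ∈ (univ : Finset α)) => key a b
      have l1 : (x' ++ [c]).length = x'.length + 1 := by simp
      have l2 : (d :: y').length = y'.length + 1 := by simp
      rw [l1, l2] at hn
      have h2 : ∀ e f : α, ∀ m : ℕ, (e = f → m = 0) →
          (∑ a : α, (if e ≠ a ∧ a ≠ f then 1 else 0) * m) = m := by
        intro e f m hm
        by_cases hef : e = f
        · simp [hm hef]
        · rw [← sum_mul, card_ne_two hef, hk]; simp
      have s1 : ∑ a : α, ∑ b : α, (if c ≠ a ∧ a ≠ b then 1 else 0) * B (x' ++ c :: b :: d :: y') =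
          ∑ b : α, B (x' ++ c :: b :: d :: y') := by
        rw [sum_comm]
        exact sum_congr rfl fun b _ => h2 c b _ (by rintro rfl; exact B_rep _ _ _)
      have s2 : ∑ a : α, ∑ b : α, (if d ≠ b ∧ b ≠ a then 1 else 0) * B (x' ++ c :: a :: d :: y') =
          ∑ a : α, B (x' ++ c :: a :: d :: y') :=
        sum_congr rfl fun a _ => h2 d a _ (by rintro rfl; simpa using B_rep (x' ++ [c]) y' d)
      have s3 : ∑ a : α, ∑ b : α, (if a = c then B (x' ++ c :: b :: d :: y') else 0) =
          ∑ b : α, B (x' ++ c :: b :: d :: y') := by
        rw [sum_comm]; simp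
      have s4 : ∑ a : α, ∑ b : α, (if b = d then B (x' ++ c :: a :: d :: y') else 0) =
          ∑ a : α, B (x' ++ c :: a :: d :: y') := by simp
      simp only [sum_add_distrib] at h1
      simp only [← S_sum] at h1
      rw [s1, s2, s3, s4, S_congr (x := x' ++ [c])
          (h' := fun z => (2 * (n + 4).choose (x'.length + 2) * B (d :: y')) * B z) (fun z hz => by
            rw [ih z (d :: y') (by simp at hz ⊢; omega), show z.length = x'.length by
              simp at hz; omega]; ring),
        S_congr (x := d :: y')
          (h' := fun z => (2 * (n + 4).choose (x'.length + 1 + 2) * B (x' ++ [c])) * B z)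
          (fun z hz => by rw [ih (x' ++ [c]) z (by simp at hz ⊢; omega), l1]),
        S_mul, S_mul, S_B (by simp) hx, S_B (by simp) hy] at h1
      rw [l1, show n + 1 + 4 = (n + 4) + 1 by omega, show x'.length + 1 + 2 = (x'.length + 2) + 1
        by omega, Nat.choose_succ_succ']
      rw [show x'.length + 1 + 2 = (x'.length + 2) + 1 by omega] at h1
      nlinarith

end Pool.Agent.P.MP_f3d782_pr.Q2
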