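import Mathlib
import Pool.Agent.P.MP_f3d782_pr.Bridge
import Pool.Agent.P.MP_f3d782_pr.Q2.Dep

set_option autoImplicit false
set_option linter.unusedSectionVars false
set_option linter.unusedSimpArgs false

namespace Pool.Agent.P.MP_f3d782_pr.Q2

open Finset MeasureTheory Pool.Agent.P.MP_f3d782_pr

theorem sum_W_append {α M : Type} [Fintype α] [AddCommMonoid M] (m n : ℕ) (f : List α → M) :
    ∑ l ∈ W α (m + n), f l = ∑ u ∈ W α m, ∑ v ∈ W α n, f (u ++ v) := by
  induction m generalizing f with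
  | zero => simp [W]
  | succ m ih =>
    rw [Nat.succ_add, sum_W_succ, sum_W_succ]
    exact sum_congr rfl fun a _ => ih _

/-- The word of `x` of length `n` that starts at site `a`. -/
def wd {α : Type} (x : ℤ → α) (a : ℤ) (n : ℕ) : List α := List.ofFn fun i : Fin n => x (a + i)

section wd
variable {α : Type}

@[simp] theorem length_wd (x : ℤ → α) (a : ℤ) (n : ℕ) : (wd x a n).length = n := by simp [wd]

theorem getElem_wd (x : ℤ → α) (a : ℤ) (n i : ℕ) (h : i < (wd x a n).length) :
    (wd x a n)[i] = x (a + i) := by simp [wd]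

theorem wd_add (x : ℤ → α) (a : ℤ) (m n : ℕ) : wd x a (m + n) = wd x a m ++ wd x (a + m) n := by
  refine List.ext_getElem (by simp) fun i h1 h2 => ?_
  rw [getElem_wd, List.getElem_append]
  split_ifs with h
  · rw [getElem_wd]
  · rw [getElem_wd]
    simp only [length_wd] at h ⊢
    congr 1
    push_cast [Nat.cast_sub (not_lt.mp h)]
    ring

theorem wd_congr {x x' : ℤ → α} {a : ℤ} {n : ℕ} (h : ∀ i, a ≤ i → i < a + n → x i = x' i) :
    wd x a n = wd x' a n := by
  refine List.ext_getElem (by simp) fun i h1 h2 => ?_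
  rw [getElem_wd, getElem_wd]
  simp only [length_wd] at h1
  exact h _ (by omega) (by omega)

theorem eq_of_wd {x x' : ℤ → α} {a : ℤ} {n : ℕ} (h : wd x a n = wd x' a n) (i : ℤ) (h1 : a ≤ i)
    (h2 : i < a + n) : x i = x' i := by
  obtain ⟨j, rfl⟩ : ∃ j : ℕ, i = a + j := ⟨(i - a).toNat, by omega⟩
  rw [← getElem_wd x a n j (by simp; omega), ← getElem_wd x' a n j (by simp; omega)]
  simp only [h]

theorem wd_shift (x : ℤ → α) (h a : ℤ) (n : ℕ) : wd (fun j => x (j + h)) a n = wd x (a + h) n := by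
  simp only [wd, add_right_comm]

/-- The event `E` depends only on the sites in `[a, b)`. -/
def Dep (E : Set (ℤ → α)) (a b : ℤ) : Prop :=
  ∀ x x', (∀ i, a ≤ i → i < b → x i = x' i) → x ∈ E → x' ∈ E

theorem Dep.mono {E : Set (ℤ → α)} {a b a' b' : ℤ} (h : Dep E a b) (h1 : a' ≤ a) (h2 : b ≤ b') :
    Dep E a' b' := fun x x' H => h x x' fun i i1 i2 => H i (by omega) (by omega)

theorem Dep.compl {E : Set (ℤ → α)} {a b : ℤ} (h : Dep E a b) : Dep Eᶜ a b :=
  fun x x' H hx hx' => hx (h x' x (fun i i1 i2 => (H i i1 i2).symm) hx')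

theorem Dep.inter {E E' : Set (ℤ → α)} {a b : ℤ} (h : Dep E a b) (h' : Dep E' a b) :
    Dep (E ∩ E') a b := fun x x' H hx => ⟨h x x' H hx.1, h' x x' H hx.2⟩

theorem dep_wd (φ : List α → Prop) (a : ℤ) (n : ℕ) : Dep {x | φ (wd x a n)} a (a + n) :=
  fun x x' H hx => by simpa only [Set.mem_ofPred_eq, ← wd_congr H] using hx

theorem Dep.eq {E : Set (ℤ → α)} {a : ℤ} {n : ℕ} (h : Dep E a (a + n)) :
    ∃ φ : List α → Prop, E = {x | φ (wd x a n)} := by
  refine ⟨fun l => ∃ x' ∈ E, wd x' a n = l, ?_⟩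
  ext x
  exact ⟨fun hx => ⟨x, hx, rfl⟩, fun ⟨x', hx', e⟩ => h x' x (eq_of_wd e) hx'⟩

end wd

variable {q : ℕ}

theorem meas_wd (φ : List (Fin q) → Prop) (a : ℤ) (n : ℕ) :
    MeasurableSet {x : ℤ → Fin q | φ (wd x a n)} :=
  (measurable_pi_lambda (fun (x : ℤ → Fin q) (i : Fin n) => x (a + i))
    fun _ => measurable_pi_apply _) (Set.toFinite {z | φ (List.ofFn z)}).measurableSet

theorem Dep.meas {E : Set (ℤ → Fin q)} {a b : ℤ} (h : Dep E a b) : MeasurableSet E := by
  obtain ⟨φ, rfl⟩ := (h.mono le_rfl (by omega : b ≤ a + ((b - a).toNat : ℕ))).eq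
  exact meas_wd _ _ _

/-- `P` is a stationary law with word probabilities `ν`. -/
def Law (P : Measure (ℤ → Fin q)) (ν : List (Fin q) → ℝ) : Prop :=
  IsProbabilityMeasure P ∧ ∀ a l, P.real {x | wd x a l.length = l} = ν l

/-- Words separated by `k` free sites are independent. -/
def Gap (k : ℕ) (ν : List (Fin q) → ℝ) : Prop :=
  ∀ u v, ∑ g ∈ W (Fin q) k, ν (u ++ g ++ v) = ν u * ν v

variable {P : Measure (ℤ → Fin q)} {ν : List (Fin q) → ℝ}

theorem Law.nonneg (h : Law P ν) (l : List (Fin q)) : 0 ≤ ν l := by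
  rw [← h.2 0 l]; exact measureReal_nonneg

theorem Law.prob (h : Law P ν) (φ : List (Fin q) → Prop) [DecidablePred φ] (a : ℤ) (n : ℕ) :
    P.real {x | φ (wd x a n)} = ∑ l ∈ W (Fin q) n, if φ l then ν l else 0 := by
  have := h.1
  have : {x | φ (wd x a n)} = ⋃ l ∈ (W (Fin q) n).filter φ, {x | wd x a n = l} := by
    ext x
    simp [mem_W]
  rw [this, measureReal_biUnion_finset, ← sum_filter]
  · refine sum_congr rfl fun l hl => ?_
    rw [← mem_W.mp (mem_filter.mp hl).1, h.2]
  · intro l _ l' _ hne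
    exact Set.disjoint_left.mpr fun x hx hx' => hne (hx.symm.trans hx')
  · exact fun l _ => meas_wd (· = l) a n

theorem Law.sum_one (h : Law P ν) (n : ℕ) : ∑ l ∈ W (Fin q) n, ν l = 1 := by
  have := h.1
  have := h.prob (fun _ => True) 0 n
  simpa using this.symm

theorem Law.marg (h : Law P ν) (φ : List (Fin q) → Prop) [DecidablePred φ] (m n k : ℕ) :
    ∑ y ∈ W (Fin q) (m + n + k), (if φ ((y.drop m).take n) then ν y else 0) =
      ∑ w ∈ W (Fin q) n, if φ w then ν w else 0 := by
  rw [← h.prob φ m n, ← h.prob (fun y => φ ((y.drop m).take n)) 0 (m + n + k)]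
  congr 1
  ext x
  simp only [Set.mem_ofPred_eq, wd_add, List.append_assoc]
  rw [List.drop_left' (by simp), List.take_left' (by simp), zero_add]

theorem Law.indep (h : Law P ν) {k : ℕ} (hg : Gap k ν) {E E' : Set (ℤ → Fin q)} {a s b : ℤ}
    (hE : Dep E a s) (hE' : Dep E' (s + k) b) : P.real (E ∩ E') = P.real E * P.real E' := by
  classical
  obtain ⟨n, hn⟩ : ∃ n : ℕ, s - n ≤ a := ⟨(s - a).toNat, by omega⟩
  obtain ⟨n', hn'⟩ : ∃ n' : ℕ, b ≤ s + k + n' := ⟨(b - s - k).toNat, by omega⟩
  obtain ⟨φ, e1⟩ := (hE.mono hn (by omega : s ≤ s - n + n)).eq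
  obtain ⟨ψ, e2⟩ := (hE'.mono le_rfl hn').eq
  have e3 : E ∩ E' = {x | φ ((wd x (s - n) (n + k + n')).take n) ∧
      ψ ((wd x (s - n) (n + k + n')).drop (n + k))} := by
    ext x
    rw [e1, e2]
    simp only [Set.mem_inter_iff, Set.mem_ofPred_eq]
    rw [wd_add, List.drop_left' (by simp), wd_add, List.append_assoc, List.take_left' (by simp)]
    push_cast
    rw [show s - n + (n + k) = s + k by ring]
  rw [e3, h.prob (fun l => φ (l.take n) ∧ ψ (l.drop (n + k))), sum_W_append, sum_W_append]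
  conv_rhs => rw [e1, e2, h.prob, h.prob, sum_mul_sum]
  refine sum_congr rfl fun u hu => ?_
  rw [sum_comm]
  refine sum_congr rfl fun v _ => ?_
  have : ∀ g ∈ W (Fin q) k, (if φ ((u ++ g ++ v).take n) ∧ ψ ((u ++ g ++ v).drop (n + k)) then
      ν (u ++ g ++ v) else 0) = if φ u ∧ ψ v then ν (u ++ g ++ v) else 0 := by
    intro g hg
    rw [List.drop_left' (by simp [mem_W.mp hu, mem_W.mp hg]), List.append_assoc,
      List.take_left' (mem_W.mp hu)]
  rw [sum_congr rfl this]
  by_cases h1 : φ u <;> by_cases h2 : ψ v <;> simp [h1, h2, ← hg u v]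

theorem Law.prod (h : Law P ν) {k : ℕ} (hg : Gap k ν) (E : ℕ → Set (ℤ → Fin q)) (a : ℕ → ℤ)
    (hE : ∀ j, Dep (E j) (a j) (a (j + 1) - k)) (ha : Monotone a) (m : ℕ) :
    P.real {x | ∀ j < m, x ∈ E j} = ∏ j ∈ range m, P.real (E j) := by
  have := h.1
  induction m with
  | zero => simp
  | succ m ih =>
    have e : {x | ∀ j < m + 1, x ∈ E j} = {x | ∀ j < m, x ∈ E j} ∩ E m := by
      ext x
      simp only [Nat.forall_lt_succ_right, Set.mem_inter_iff, Set.mem_ofPred_eq]
    have hd : Dep {x | ∀ j < m, x ∈ E j} (a 0) (a m - k) := fun x x' H hx j hj =>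
      (hE j).mono (ha (Nat.zero_le j)) (by have := ha (show j + 1 ≤ m from hj); omega) x x' H
        (hx j hj)
    rw [e, h.indep hg hd (by simpa using hE m), ih, prod_range_succ]

theorem dep_of_cyl {t : Set (ℤ → Fin q)} (ht : t ∈ measurableCylinders fun _ : ℤ => Fin q) :
    ∃ r : ℕ, Dep t (-r) r := by
  obtain ⟨s, S, -, rfl⟩ := (mem_measurableCylinders t).mp ht
  refine ⟨s.sup (fun i => i.natAbs) + 1, fun x x' H hx => ?_⟩
  rw [mem_cylinder] at hx ⊢
  convert hx using 1
  funext i
  have : (i : ℤ).natAbs ≤ s.sup (fun i => i.natAbs) := le_sup (f := fun i : ℤ => i.natAbs) i.2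
  exact (H i (by push_cast; omega) (by push_cast; omega)).symm

theorem Law.unique {P' : Measure (ℤ → Fin q)} (h : Law P ν) (h' : Law P' ν) : P = P' := by
  classical
  have := h.1
  have := h'.1
  refine ext_of_generate_finite _ generateFrom_measurableCylinders.symm
    isPiSystem_measurableCylinders (fun t ht => ?_) (by simp)
  obtain ⟨r, hr⟩ := dep_of_cyl ht
  obtain ⟨φ, rfl⟩ := (hr.mono le_rfl (by push_cast; omega : (r : ℤ) ≤ -r + (2 * r : ℕ))).eq
  rw [← measureReal_eq_measureReal_iff, h.prob, h'.prob]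

theorem meas_shift (h : ℤ) : Measurable fun (x : ℤ → Fin q) (j : ℤ) => x (j + h) :=
  measurable_pi_lambda _ fun _ => measurable_pi_apply _

theorem Law.stat (h : Law P ν) (s : ℤ) : P.map (fun x j => x (j + s)) = P := by
  have := h.1
  refine Law.unique ⟨Measure.isProbabilityMeasure_map (meas_shift s).aemeasurable,
    fun a l => ?_⟩ h
  rw [map_measureReal_apply (meas_shift s) (meas_wd (· = l) _ _), ← h.2 (a + s) l]
  simp only [Set.preimage_ofPred_eq, wd_shift]

/-- The word probabilities of the colorings. -/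
noncomputable def nu (q : ℕ) (l : List (Fin q)) : ℝ := (B l : ℝ) / T (Fin q) l.length

theorem law_of (hP : IsColoringLaw q P) : Law P (nu q) := by
  have := hP.1
  refine ⟨hP.1, fun a l => ?_⟩
  obtain ⟨n, z, rfl⟩ : ∃ (n : ℕ) (z : Fin n → Fin q), l = List.ofFn z :=
    ⟨_, l.get, (List.ofFn_get l).symm⟩
  rcases Nat.eq_zero_or_pos n with rfl | hn
  · simp [wd, nu, T_zero]
  have := hP.2 (a - 1) n hn z
  rw [mu_eq] at this
  rw [List.length_ofFn, nu, List.length_ofFn, Measure.real]
  have e : {x : ℤ → Fin q | wd x a n = List.ofFn z} =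
      {x | ∀ i : Fin n, x (a - 1 + 1 + (i : ℕ)) = z i} := by
    ext x
    simp [wd, List.ofFn_inj, funext_iff]
  rw [e, this]
  simp

theorem gap_four : Gap 1 (nu 4) := by
  intro u v
  have h1 := gap_one (α := Fin 4) (by simp) u v
  have h2 := Nat.add_choose_mul_factorial_mul_factorial (v.length + 1) (u.length + 1)
  rw [sum_W_succ]
  simp only [W, sum_singleton, nu, List.append_assoc, List.singleton_append]
  simp only [List.length_append, List.length_cons, ← sum_div, T_four]
  rw [← Nat.cast_sum, h1, show u.length + (v.length + 1) + 1 = v.length + 1 + (u.length + 1) by omega,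
    ← h2, show u.length + v.length + 2 = v.length + 1 + (u.length + 1) by omega]
  have h3 : (0 : ℝ) < ((v.length + 1 + (u.length + 1)).choose (u.length + 1) : ℕ) := by
    exact_mod_cast Nat.choose_pos (by omega)
  push_cast
  field_simp
  ring

theorem gap_three : Gap 2 (nu 3) := by
  intro u v
  have h1 := gap_two (α := Fin 3) (by simp) u v
  have h2 := Nat.add_choose_mul_factorial_mul_factorial (v.length + 2) (u.length + 2)
  have hT : ∀ n, (T (Fin 3) n : ℝ) = (n + 2).factorial / 2 := fun n => by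
    rw [← T_three]; push_cast; ring
  rw [sum_W_succ]
  simp only [sum_W_succ (m := 0)]
  simp only [show W (Fin 3) 0 = {[]} from rfl, sum_singleton, nu, List.append_assoc, List.cons_append,
    List.nil_append]
  simp only [List.length_append, List.length_cons, ← sum_div, hT]
  simp only [← Nat.cast_sum]
  rw [h1, show u.length + (v.length + 1 + 1) + 2 = v.length + 2 + (u.length + 2) by omega,
    ← h2, show u.length + v.length + 4 = v.length + 2 + (u.length + 2) by omega]
  have h3 : (0 : ℝ) < ((v.length + 2 + (u.length + 2)).choose (u.length + 2) : ℕ) := by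
    exact_mod_cast Nat.choose_pos (by omega)
  push_cast
  field_simp

theorem pr_of_nu {l : List (Fin q)} (h : nu q l ≠ 0) : Pr l :=
  pr_of_B_ne fun e => h (by simp [nu, e])

end Pool.Agent.P.MP_f3d782_pr.Q2
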