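import Mathlib

set_option autoImplicit false

namespace Pool.Agent.P.MP_f3d782_pr.Q2

open Finset

variable {α β : Type}

open Classical in
theorem exists_kernel (A : Finset α) (Bs C : Finset β) (E : Finset (α × β))
    (hE : ∀ p ∈ E, p.2 ∈ C) (hc : A.card + C.card < E.card) :
    ∃ δ : α → β → ℝ, (∀ a b, δ a b ≠ 0 → (a, b) ∈ E) ∧ (∃ a b, 0 < δ a b) ∧
      (∀ a ∈ A, ∑ b ∈ Bs, δ a b = 0) ∧ ∀ b, ∑ a ∈ A, δ a b = 0 := by
  let ex : (E → ℝ) → α → β → ℝ := fun d a b => if h : (a, b) ∈ E then d ⟨_, h⟩ else 0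
  have ex1 : ∀ d d' a b, ex (d + d') a b = ex d a b + ex d' a b := fun d d' a b => by
    simp only [ex]; split_ifs <;> simp
  have ex2 : ∀ (c : ℝ) d a b, ex (c • d) a b = c * ex d a b := fun c d a b => by
    simp only [ex]; split_ifs <;> simp
  let L : (E → ℝ) →ₗ[ℝ] (A → ℝ) × (C → ℝ) :=
    { toFun := fun d => (fun a => ∑ b ∈ Bs, ex d a b, fun b => ∑ a ∈ A, ex d a b)
      map_add' := fun d d' => by ext <;> simp [ex1, sum_add_distrib]
      map_smul' := fun c d => by ext <;> simp [ex2, mul_sum] }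
  have hk : LinearMap.ker L ≠ ⊥ := LinearMap.ker_ne_bot_of_finrank_lt (by simpa using hc)
  have key : ∀ d ∈ LinearMap.ker L, (∃ e, 0 < d e) → ∃ δ : α → β → ℝ,
      (∀ a b, δ a b ≠ 0 → (a, b) ∈ E) ∧ (∃ a b, 0 < δ a b) ∧
      (∀ a ∈ A, ∑ b ∈ Bs, δ a b = 0) ∧ ∀ b, ∑ a ∈ A, δ a b = 0 := by
    rintro d hd ⟨e, he⟩
    have h0 : ∀ a b, ex d a b ≠ 0 → (a, b) ∈ E := fun a b h => by
      by_contra hn
      exact h (dif_neg hn)
    refine ⟨ex d, h0, ⟨e.1.1, e.1.2, by simpa [ex, e.2] using he⟩,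
      fun a ha => congrFun (congrArg Prod.fst hd) ⟨a, ha⟩, fun b => ?_⟩
    by_cases hb : b ∈ C
    · exact congrFun (congrArg Prod.snd hd) ⟨b, hb⟩
    · exact sum_eq_zero fun a _ => by_contra fun h => hb (hE _ (h0 a b h))
  obtain ⟨d, hd, hd0⟩ := (Submodule.ne_bot_iff _).mp hk
  obtain ⟨e, he⟩ := Function.ne_iff.mp hd0
  rcases lt_or_gt_of_ne he with h | h
  · exact key (-d) (neg_mem hd) ⟨e, by simpa using h⟩
  · exact key d hd ⟨e, h⟩

open Classical in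
/-- A coupling can be thinned out to one with few nonzero entries. -/
theorem exists_sparse (A : Finset α) (Bs C : Finset β) (π : α → β → ℝ) (h0 : ∀ a b, 0 ≤ π a b)
    (hC : ∀ a ∈ A, ∀ b ∈ Bs, π a b ≠ 0 → b ∈ C) :
    ∃ π' : α → β → ℝ, (∀ a b, 0 ≤ π' a b) ∧ (∀ a b, π' a b ≠ 0 → π a b ≠ 0) ∧
      (∀ a ∈ A, ∑ b ∈ Bs, π' a b = ∑ b ∈ Bs, π a b) ∧
      (∀ b, ∑ a ∈ A, π' a b = ∑ a ∈ A, π a b) ∧
      ((A ×ˢ Bs).filter fun p => π' p.1 p.2 ≠ 0).card ≤ A.card + C.card := by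
  induction hn : ((A ×ˢ Bs).filter fun p => π p.1 p.2 ≠ 0).card using Nat.strong_induction_on
    generalizing π with
  | _ n ih =>
    by_cases hc : n ≤ A.card + C.card
    · exact ⟨π, h0, fun _ _ h => h, fun _ _ => rfl, fun _ => rfl, hn ▸ hc⟩
    set E := (A ×ˢ Bs).filter fun p => π p.1 p.2 ≠ 0 with hE
    obtain ⟨δ, d1, ⟨a1, b1, d2⟩, d3, d4⟩ := exists_kernel A Bs C E (fun p hp => by
      simp only [hE, mem_filter, mem_product] at hp
      exact hC _ hp.1.1 _ hp.1.2 hp.2) (by omega)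
    obtain ⟨e, he, hm⟩ := exists_min_image (E.filter fun p => 0 < δ p.1 p.2)
      (fun p => π p.1 p.2 / δ p.1 p.2) ⟨(a1, b1), mem_filter.mpr ⟨d1 _ _ d2.ne', d2⟩⟩
    obtain ⟨he1, he2⟩ := mem_filter.mp he
    set t := π e.1 e.2 / δ e.1 e.2 with ht
    have t0 : 0 ≤ t := div_nonneg (h0 _ _) he2.le
    have hs : ∀ a b, π a b - t * δ a b ≠ 0 → π a b ≠ 0 := fun a b h hz => by
      by_cases hd : δ a b = 0
      · exact h (by simp [hz, hd])
      · exact (mem_filter.mp (d1 a b hd)).2 hz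
    have hlt : ((A ×ˢ Bs).filter fun p => π p.1 p.2 - t * δ p.1 p.2 ≠ 0).card < n := by
      rw [← hn]
      refine card_lt_card ⟨fun p hp => ?_, fun h => ?_⟩
      · exact mem_filter.mpr ⟨(mem_filter.mp hp).1, hs _ _ (mem_filter.mp hp).2⟩
      · exact (mem_filter.mp (h he1)).2 (by rw [ht, div_mul_cancel₀ _ he2.ne', sub_self])
    have hpos : ∀ a b, 0 ≤ π a b - t * δ a b := fun a b => by
      by_cases hd : 0 < δ a b
      · have := hm (a, b) (mem_filter.mpr ⟨d1 a b hd.ne', hd⟩)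
        rw [le_div_iff₀ hd] at this
        simpa using this
      · nlinarith [h0 a b, mul_nonneg t0 (neg_nonneg.mpr (not_lt.mp hd))]
    obtain ⟨π', p1, p2, p3, p4, p5⟩ := ih _ hlt (fun a b => π a b - t * δ a b) hpos
      (fun a ha b hb h => hC a ha b hb (hs a b h)) rfl
    refine ⟨π', p1, fun a b h => hs a b (p2 a b h), fun a ha => ?_, fun b => ?_, p5⟩
    · rw [p3 a ha, sum_sub_distrib, ← mul_sum, d3 a ha]; simp
    · rw [p4 b, sum_sub_distrib, ← mul_sum, d4 b]; simp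

end Pool.Agent.P.MP_f3d782_pr.Q2
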