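import Mathlib
import Pool.Agent.P.MP_f3d782_pr.Q2.Prob
import Pool.Agent.P.MP_f3d782_pr.Q2.Sparse

set_option autoImplicit false
set_option linter.unusedSectionVars false
set_option linter.unusedSimpArgs false

namespace Pool.Agent.P.MP_f3d782_pr.Q2

open Finset MeasureTheory Pool.Agent.P.MP_f3d782_pr

/-- The number of sites covered by blocks with the given bits. -/
def len : List Bool → ℕ
  | [] => 0
  | b :: a => 18 + b.toNat + len a

theorem len_append (a b : List Bool) : len (a ++ b) = len a + len b := by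
  induction a with
  | nil => simp [len]
  | cons c a ih => simp [len, ih, add_assoc]

theorem le_len (a : List Bool) : 18 * a.length ≤ len a := by
  induction a with
  | nil => simp
  | cons c a ih => simp only [len, List.length_cons]; omega

theorem len_le (a : List Bool) : len a ≤ 19 * a.length := by
  induction a with
  | nil => simp [len]
  | cons c a ih => have := Bool.toNat_le c; simp only [len, List.length_cons]; omega

/-- The word ends with `k` ones and a zero. -/
def Cut (k : ℕ) (a : List Bool) : Prop := ∃ a', a = a' ++ (List.replicate k true ++ [false])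

theorem Cut.length {k : ℕ} {a : List Bool} (h : Cut k a) : k + 1 ≤ a.length := by
  obtain ⟨a', rfl⟩ := h
  simp

theorem Cut.mono {k k' : ℕ} {a : List Bool} (h : Cut k' a) (hk : k ≤ k') : Cut k a := by
  obtain ⟨a', rfl⟩ := h
  obtain ⟨d, rfl⟩ := Nat.exists_eq_add_of_le' hk
  exact ⟨a' ++ List.replicate d true, by rw [List.replicate_add]; simp only [List.append_assoc]⟩

theorem Cut.left {k : ℕ} {c : List Bool} (h : Cut k c) (u : List Bool) : Cut k (u ++ c) := by
  obtain ⟨a', rfl⟩ := h
  exact ⟨u ++ a', by simp⟩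

theorem Cut.of_length {k : ℕ} {u c : List Bool} (h : Cut k (u ++ c)) (hc : k + 1 ≤ c.length) :
    Cut k c := by
  obtain ⟨a', e⟩ := h
  rcases List.append_eq_append_iff.mp e with ⟨w, -, h2⟩ | ⟨w, -, h2⟩
  · exact ⟨w, h2⟩
  · have := congrArg List.length h2
    simp only [List.length_append, List.length_replicate, List.length_singleton] at this
    obtain rfl : w = [] := List.length_eq_zero_iff.mp (by omega)
    exact ⟨[], by simpa using h2.symm⟩

theorem Cut.right {k k' : ℕ} {u c : List Bool} (h : Cut k (u ++ c)) (hu : Cut k' u) (hc : c ≠ []) :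
    Cut k c := by
  by_cases hl : k + 1 ≤ c.length
  · exact h.of_length hl
  exfalso
  obtain ⟨u', rfl⟩ := hu.mono (Nat.zero_le _)
  obtain ⟨a', e⟩ := h
  obtain ⟨c', d, rfl⟩ := (List.eq_nil_or_concat c).resolve_left hc
  rw [List.concat_eq_append, ← List.append_assoc, ← List.append_assoc a'] at e
  have e1 := (List.append_inj' e rfl).1
  simp only [List.concat_eq_append, List.length_append, List.length_singleton] at hl
  obtain ⟨m, rfl⟩ : ∃ m, k = m + 1 + c'.length := ⟨k - 1 - c'.length, by omega⟩
  rw [List.replicate_add, ← List.append_assoc a'] at e1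
  have e2 := (List.append_inj' e1 (by simp)).1
  rw [List.replicate_add, ← List.append_assoc a'] at e2
  simpa using (List.append_inj' e2 rfl).2

theorem exists_split (a : List Bool) : ∃ p, 2 ≤ a.length → 0 < p ∧ p < a.length ∧
    ∀ p' k, 0 < p' → p' < a.length → 1 ≤ k → Cut k (a.take p') → Cut k (a.take p) := by
  classical
  by_cases h : 2 ≤ a.length
  swap
  · exact ⟨0, fun h' => absurd h' h⟩
  obtain ⟨p, hp, hm⟩ := exists_max_image (Ioo 0 a.length)
    (fun p => Nat.findGreatest (fun k => Cut k (a.take p)) a.length) ⟨1, by simp; omega⟩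
  refine ⟨p, fun _ => ⟨(mem_Ioo.mp hp).1, (mem_Ioo.mp hp).2, fun p' k h1 h2 hk hc => ?_⟩⟩
  have h3 : k ≤ Nat.findGreatest (fun k => Cut k (a.take p')) a.length :=
    Nat.le_findGreatest (by have := hc.length; simp at this; omega) hc
  have h4 := h3.trans (hm p' (mem_Ioo.mpr ⟨h1, h2⟩))
  exact (Nat.findGreatest_of_ne_zero (P := fun k => Cut k (a.take p)) rfl (by omega)).mono h4

/-- The place of the highest cut. -/
noncomputable def spl (a : List Bool) : ℕ := (exists_split a).choose

theorem spl_spec {a : List Bool} (h : 2 ≤ a.length) : 0 < spl a ∧ spl a < a.length ∧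
    ∀ p' k, 0 < p' → p' < a.length → 1 ≤ k → Cut k (a.take p') → Cut k (a.take (spl a)) :=
  (exists_split a).choose_spec h

variable {D : Type} [Fintype D] (ν : List (Fin 3) → ℝ)

/-- `π` couples uniform digit words with colorings of the sites of the blocks. -/
def Cpl (a : List Bool) (π : List D → List (Fin 3) → ℝ) : Prop :=
  (∀ ω y, 0 ≤ π ω y) ∧
  (∀ ω ∈ W D a.length, ∑ y ∈ W (Fin 3) (len a - 2), π ω y = (Fintype.card D : ℝ)⁻¹ ^ a.length) ∧
  ∀ y ∈ W (Fin 3) (len a - 2), ∑ ω ∈ W D a.length, π ω y = ν y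

open Classical in
theorem exists_ref (a : List Bool) (π : List D → List (Fin 3) → ℝ) :
    ∃ π' : List D → List (Fin 3) → ℝ, (∀ ω y, π' ω y ≠ 0 → π ω y ≠ 0) ∧ (Cpl ν a π → Cpl ν a π' ∧
      ((W D a.length ×ˢ W (Fin 3) (len a - 2)).filter fun p => π' p.1 p.2 ≠ 0).card ≤
        (W D a.length).card + ((W (Fin 3) (len a - 2)).filter fun y => ν y ≠ 0).card) := by
  by_cases h : Cpl ν a π
  swap
  · exact ⟨π, fun _ _ h => h, fun h' => absurd h' h⟩
  obtain ⟨π', p1, p2, p3, p4, p5⟩ := exists_sparse (W D a.length) (W (Fin 3) (len a - 2))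
    ((W (Fin 3) (len a - 2)).filter fun y => ν y ≠ 0) π h.1 fun ω hω y hy hz =>
      mem_filter.mpr ⟨hy, by
        rw [← h.2.2 y hy]
        exact ((lt_of_le_of_ne (h.1 ω y) (Ne.symm hz)).trans_le
          (single_le_sum (f := fun ω => π ω y) (fun ω _ => h.1 ω y) hω)).ne'⟩
  exact ⟨π', p2, fun _ => ⟨⟨p1, fun ω hω => by rw [p3 ω hω, h.2.1 ω hω],
    fun y hy => by rw [p4 y, h.2.2 y hy]⟩, by convert p5⟩⟩

/-- Two couplings are joined; the two free sites get their conditional law. -/
noncomputable def join (p m : ℕ) (π1 π2 : List D → List (Fin 3) → ℝ) (ω : List D)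
    (y : List (Fin 3)) : ℝ :=
  π1 (ω.take p) (y.take (m - 2)) * π2 (ω.drop p) (y.drop m) *
    (ν y / (ν (y.take (m - 2)) * ν (y.drop m)))

/-- The coupling of a word of bits. -/
noncomputable def soc (a : List Bool) : List D → List (Fin 3) → ℝ :=
  if _h : 2 ≤ a.length then
    (exists_ref ν a (join ν (spl a) (len (a.take (spl a))) (soc (a.take (spl a)))
      (soc (a.drop (spl a))))).choose
  else (exists_ref ν a fun _ y => (Fintype.card D : ℝ)⁻¹ ^ a.length * ν y).choose
termination_by a.length
decreasing_by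
  · have := spl_spec _h; simp; omega
  · have := spl_spec _h; simp; omega

variable {ν} {Q : Measure (ℤ → Fin 3)}

theorem cpl_join (hQ : Law Q ν) (hg : Gap 2 ν) {a1 a2 : List Bool} (h1 : a1 ≠ []) (h2 : a2 ≠ [])
    {π1 π2 : List D → List (Fin 3) → ℝ} (c1 : Cpl ν a1 π1) (c2 : Cpl ν a2 π2) :
    Cpl ν (a1 ++ a2) (join ν a1.length (len a1) π1 π2) := by
  have l1 := le_len a1
  have l2 := le_len a2
  have := List.length_pos_iff.mpr h1
  have := List.length_pos_iff.mpr h2
  have e : len (a1 ++ a2) - 2 = (len a1 - 2) + 2 + (len a2 - 2) := by rw [len_append]; omega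
  have ev : ∀ ω1 ∈ W D a1.length, ∀ ω2, ∀ y1 ∈ W (Fin 3) (len a1 - 2), ∀ g ∈ W (Fin 3) 2, ∀ y2,
      join ν a1.length (len a1) π1 π2 (ω1 ++ ω2) (y1 ++ g ++ y2) =
        π1 ω1 y1 * π2 ω2 y2 * (ν (y1 ++ g ++ y2) / (ν y1 * ν y2)) := by
    intro ω1 hω ω2 y1 hy g hg y2
    rw [join, List.take_left' (mem_W.mp hω), List.drop_left' (mem_W.mp hω),
      List.drop_left' (l₁ := y1 ++ g) (by simp [mem_W.mp hy, mem_W.mp hg]; omega),
      List.append_assoc y1, List.take_left' (mem_W.mp hy)]
  refine ⟨fun ω y => mul_nonneg (mul_nonneg (c1.1 _ _) (c2.1 _ _)) (div_nonneg (hQ.nonneg _)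
    (mul_nonneg (hQ.nonneg _) (hQ.nonneg _))), fun ω hω => ?_, fun y hy => ?_⟩
  · have hl := mem_W.mp hω
    rw [List.length_append] at hl
    have m1 : ω.take a1.length ∈ W D a1.length := mem_W.mpr (by simp; omega)
    have m2 : ω.drop a1.length ∈ W D a2.length := mem_W.mpr (by simp; omega)
    rw [← List.take_append_drop a1.length ω, e, sum_W_append, sum_W_append, List.length_append,
      pow_add, ← c1.2.1 _ m1, ← c2.2.1 _ m2, sum_mul_sum]
    refine sum_congr rfl fun y1 hy1 => ?_
    rw [sum_comm]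
    refine sum_congr rfl fun y2 hy2 => ?_
    rw [sum_congr rfl fun g hg => ev _ m1 _ y1 hy1 g hg y2, ← mul_sum, ← sum_div, hg]
    by_cases hz : ν y1 * ν y2 = 0
    · have z : ∀ {a : List Bool} {π : List D → List (Fin 3) → ℝ}, Cpl ν a π →
          ∀ ω ∈ W D a.length, ∀ y ∈ W (Fin 3) (len a - 2), ν y = 0 → π ω y = 0 :=
        fun {a π} c ω hω y hy h => le_antisymm (h ▸ c.2.2 y hy ▸
          single_le_sum (f := fun ω => π ω y) (fun ω _ => c.1 ω y) hω) (c.1 _ _)
      rcases mul_eq_zero.mp hz with h | h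
      · simp [z c1 _ m1 y1 hy1 h]
      · simp [z c2 _ m2 y2 hy2 h]
    · rw [div_self hz, mul_one]
  · have hl := mem_W.mp hy
    rw [e] at hl
    obtain ⟨y1, g, y2, rfl, m1, mg, m2⟩ : ∃ y1 g y2, y = y1 ++ g ++ y2 ∧
        y1 ∈ W (Fin 3) (len a1 - 2) ∧ g ∈ W (Fin 3) 2 ∧ y2 ∈ W (Fin 3) (len a2 - 2) :=
      ⟨y.take (len a1 - 2), (y.drop (len a1 - 2)).take 2, (y.drop (len a1 - 2)).drop 2,
        by rw [List.append_assoc, List.take_append_drop, List.take_append_drop],
        mem_W.mpr (by simp; omega), mem_W.mpr (by simp; omega), mem_W.mpr (by simp; omega)⟩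
    rw [List.length_append, sum_W_append,
      sum_congr rfl fun ω1 hω => sum_congr rfl fun ω2 _ => ev ω1 hω ω2 y1 m1 g mg y2]
    simp only [← sum_mul, ← mul_sum]
    rw [c1.2.2 y1 m1, c2.2.2 y2 m2]
    by_cases hz : ν y1 * ν y2 = 0
    · rw [hz, zero_mul]
      exact le_antisymm (hQ.nonneg _) (hz ▸ hg y1 y2 ▸
        single_le_sum (f := fun g => ν (y1 ++ g ++ y2)) (fun _ _ => hQ.nonneg _) mg)
    · rw [mul_div_cancel₀ _ hz]

open Classical in
theorem soc_spec [Nonempty D] (hQ : Law Q ν) (hg : Gap 2 ν) (a : List Bool) :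
    Cpl ν a (soc (D := D) ν a) ∧
      ((W D a.length ×ˢ W (Fin 3) (len a - 2)).filter fun p => soc ν a p.1 p.2 ≠ 0).card ≤
        (W D a.length).card + ((W (Fin 3) (len a - 2)).filter fun y => ν y ≠ 0).card := by
  induction hn : a.length using Nat.strong_induction_on generalizing a with
  | _ n ih =>
    subst hn
    rw [soc]
    split_ifs with h
    · obtain ⟨s1, s2, -⟩ := spl_spec h
      have t1 : (a.take (spl a)).length = spl a := by simp; omega
      refine (exists_ref ν a _).choose_spec.2 ?_
      have := cpl_join hQ hg (a1 := a.take (spl a)) (a2 := a.drop (spl a))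
        (List.length_pos_iff.mp (by omega)) (List.length_pos_iff.mp (by simp; omega))
        (ih _ (by omega) _ rfl).1 (ih _ (by simp; omega) _ rfl).1
      rwa [List.take_append_drop, t1] at this
    · refine (exists_ref ν a _).choose_spec.2 ⟨fun _ y => mul_nonneg (by positivity) (hQ.nonneg y),
        fun ω _ => by rw [← mul_sum, hQ.sum_one, mul_one], fun y _ => ?_⟩
      have : (0 : ℝ) < Fintype.card D := by exact_mod_cast Fintype.card_pos
      rw [sum_const, card_W, nsmul_eq_mul]
      push_cast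
      rw [← mul_assoc, ← mul_pow, mul_inv_cancel₀ this.ne', one_pow, one_mul]

theorem soc_split {a : List Bool} (h : 2 ≤ a.length) {ω : List D} {y : List (Fin 3)}
    (hs : soc ν a ω y ≠ 0) :
    soc ν (a.take (spl a)) (ω.take (spl a)) (y.take (len (a.take (spl a)) - 2)) ≠ 0 ∧
      soc ν (a.drop (spl a)) (ω.drop (spl a)) (y.drop (len (a.take (spl a)))) ≠ 0 := by
  rw [soc, dif_pos h] at hs
  exact mul_ne_zero_iff.mp (mul_ne_zero_iff.mp ((exists_ref ν a _).choose_spec.1 _ _ hs)).1

/-- The coupling of a word refines the coupling of a piece between two cuts. -/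
theorem soc_node {k : ℕ} (hk : 1 ≤ k) {b : List Bool} (hb : b ≠ []) (a1 a2 : List Bool)
    (h1 : a1 = [] ∨ Cut k a1) (h2 : a2 = [] ∨ Cut k (a1 ++ b))
    (h3 : ∀ p, 0 < p → p < b.length → ¬ Cut k (a1 ++ b.take p)) {ω : List D} {y : List (Fin 3)}
    (hω : ω.length = (a1 ++ b ++ a2).length) (hy : y.length = len (a1 ++ b ++ a2) - 2)
    (hs : soc ν (a1 ++ b ++ a2) ω y ≠ 0) :
    soc ν b ((ω.drop a1.length).take b.length) ((y.drop (len a1)).take (len b - 2)) ≠ 0 := by
  have bl := List.length_pos_iff.mpr hb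
  have lb := le_len b
  induction hn : a1.length + a2.length using Nat.strong_induction_on generalizing a1 a2 ω y with
  | _ n ih =>
    by_cases h0 : a1 = [] ∧ a2 = []
    · obtain ⟨rfl, rfl⟩ := h0
      simp only [List.nil_append, List.append_nil] at hω hy hs
      simpa [len, ← hω, ← hy] using hs
    have hl : (a1 ++ b ++ a2).length = a1.length + b.length + a2.length := by simp [add_assoc]
    have hn0 : 0 < a1.length + a2.length := by
      by_contra hc
      exact h0 ⟨List.length_eq_zero_iff.mp (by omega), List.length_eq_zero_iff.mp (by omega)⟩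
    have h2l : 2 ≤ (a1 ++ b ++ a2).length := by omega
    obtain ⟨s1, s2, s3⟩ := spl_spec h2l
    obtain ⟨t1, t2⟩ := soc_split h2l hs
    have hc : Cut k ((a1 ++ b ++ a2).take (spl (a1 ++ b ++ a2))) := by
      by_cases ha : a1 = []
      · have ha2 : a2 ≠ [] := fun h => h0 ⟨ha, h⟩
        have := List.length_pos_iff.mpr ha2
        exact s3 (a1 ++ b).length k (by simp; omega) (by simp; omega) hk
          (by rw [List.take_left]; exact h2.resolve_left ha2)
      · exact s3 a1.length k (List.length_pos_iff.mpr ha) (by omega) hk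
          (by rw [List.append_assoc, List.take_left]; exact h1.resolve_left ha)
    generalize spl (a1 ++ b ++ a2) = p at s1 s2 t1 t2 hc
    by_cases hp : p ≤ a1.length
    · obtain ⟨u, c, rfl, rfl⟩ : ∃ u c, a1 = u ++ c ∧ p = u.length :=
        ⟨a1.take p, a1.drop p, by simp, by simp; omega⟩
      have e : u ++ c ++ b ++ a2 = u ++ (c ++ b ++ a2) := by simp
      rw [e, List.take_left] at hc
      rw [e, List.take_left, List.drop_left] at t2
      have := ih (c.length + a2.length) (by simp at hn; omega) c a2 (by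
          by_cases hc0 : c = []
          · exact Or.inl hc0
          · exact Or.inr ((h1.resolve_left (by simp [hc0])).right hc hc0))
        (h2.imp_right fun h => (List.append_assoc u c b ▸ h).right hc (by simp [hb]))
        (fun p p1 p2 h => h3 p p1 p2 (List.append_assoc u c _ ▸ h.left u))
        (by simp at hω ⊢; omega) (by
          rw [e, len_append] at hy
          rw [List.length_drop, hy]; omega) t2 rfl
      simpa [List.drop_drop, len_append] using this
    · have hp2 : a1.length + b.length ≤ p := by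
        by_contra hq
        refine h3 (p - a1.length) (by omega) (by omega) ?_
        rwa [List.append_assoc, List.take_append, List.take_of_length_le (by omega),
          List.take_append_of_le_length (by omega)] at hc
      obtain ⟨c, v, rfl, rfl⟩ : ∃ c v, a2 = c ++ v ∧ p = (a1 ++ b ++ c).length :=
        ⟨a2.take (p - a1.length - b.length), a2.drop (p - a1.length - b.length), by simp,
          by simp; omega⟩
      have e : a1 ++ b ++ (c ++ v) = a1 ++ b ++ c ++ v := by simp
      rw [e, List.take_left] at t1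
      have := ih (a1.length + c.length) (by simp at hn s2; omega) a1 c h1
        (h2.imp_left fun h => (List.append_eq_nil_iff.mp h).1) h3
        (by simp at hω ⊢; omega) (by
          rw [e, len_append] at hy
          rw [List.length_take, hy]; omega) t1 rfl
      rw [List.drop_take, List.take_take, List.drop_take, List.take_take] at this
      rwa [min_eq_left (by simp), min_eq_left (by simp only [len_append]; omega)] at this

/-- `y` is the only partner of the digit word `ω`. -/
def Uniq (ν : List (Fin 3) → ℝ) (a : List Bool) (ω : List D) (y : List (Fin 3)) : Prop :=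
  y.length = len a - 2 ∧ soc ν a ω y ≠ 0 ∧
    ∀ y', y'.length = len a - 2 → soc ν a ω y' ≠ 0 → y' = y

open Classical in
theorem count_uniq [Nonempty D] (hQ : Law Q ν) (hg : Gap 2 ν) (hp : ∀ y, ν y ≠ 0 → Pr y)
    (hD : 2 ^ 20 ≤ Fintype.card D) (a : List Bool) (φ : List (Fin 3) → Prop) :
    (∑ y ∈ W (Fin 3) (len a - 2), if φ y then ν y else 0) - 3 * (1 / 2) ^ a.length ≤
      ∑ ω ∈ W D a.length,
        if ∃ y, Uniq ν a ω y ∧ φ y then (Fintype.card D : ℝ)⁻¹ ^ a.length else 0 := by
  obtain ⟨c, hs⟩ := soc_spec (D := D) hQ hg a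
  set r := (Fintype.card D : ℝ)⁻¹ ^ a.length with hr
  have hD0 : (0 : ℝ) < Fintype.card D := by exact_mod_cast Fintype.card_pos
  have r0 : 0 < r := by positivity
  set Y := W (Fin 3) (len a - 2) with hY
  have key : ∀ ω ∈ W D a.length, (∑ y ∈ Y, if φ y then soc ν a ω y else 0) + r ≤
      (if ∃ y, Uniq ν a ω y ∧ φ y then r else 0) +
        ((Y.filter fun y => soc ν a ω y ≠ 0).card : ℝ) * r := by
    intro ω hω
    have row : ∑ y ∈ Y, soc ν a ω y = r := c.2.1 ω hω
    have le : (∑ y ∈ Y, if φ y then soc ν a ω y else 0) ≤ r := by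
      rw [← row]
      exact sum_le_sum fun y _ => by split_ifs; exacts [le_rfl, c.1 _ _]
    have ne : (Y.filter fun y => soc ν a ω y ≠ 0).Nonempty := by
      by_contra hn
      rw [not_nonempty_iff_eq_empty, filter_eq_empty_iff] at hn
      rw [sum_eq_zero fun y hy => not_not.mp (hn hy)] at row
      exact r0.ne row
    by_cases h2 : 2 ≤ (Y.filter fun y => soc ν a ω y ≠ 0).card
    · have : (2 : ℝ) ≤ (Y.filter fun y => soc ν a ω y ≠ 0).card := by exact_mod_cast h2
      have : 0 ≤ (if ∃ y, Uniq ν a ω y ∧ φ y then r else 0) := by split_ifs; exacts [r0.le, le_rfl]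
      nlinarith
    · obtain ⟨y0, hy0⟩ := card_eq_one.mp (show (Y.filter fun y => soc ν a ω y ≠ 0).card = 1 by
        have := ne.card_pos; omega)
      have m : ∀ y, (y ∈ Y ∧ soc ν a ω y ≠ 0) ↔ y = y0 := fun y => by
        rw [← mem_singleton, ← hy0, mem_filter]
      rw [hy0, card_singleton, Nat.cast_one, one_mul, add_le_add_iff_right]
      split_ifs with h
      · exact le
      · refine (sum_eq_zero fun y hy => ?_).le
        split_ifs with h'
        · by_contra hz
          obtain rfl := (m y).mp ⟨hy, hz⟩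
          exact h ⟨y, ⟨mem_W.mp hy, hz, fun y' l h => (m y').mp ⟨mem_W.mpr l, h⟩⟩, h'⟩
        · rfl
  have s1 := sum_le_sum key
  rw [sum_add_distrib, sum_add_distrib, sum_comm, ← sum_mul, sum_const, nsmul_eq_mul] at s1
  have s2 : ∑ y ∈ Y, ∑ ω ∈ W D a.length, (if φ y then soc ν a ω y else 0) =
      ∑ y ∈ Y, if φ y then ν y else 0 :=
    sum_congr rfl fun y hy => by split_ifs; exacts [c.2.2 y hy, by simp]
  have s3 : ∑ ω ∈ W D a.length, ((Y.filter fun y => soc ν a ω y ≠ 0).card : ℝ) =
      ((W D a.length ×ˢ Y).filter fun p => soc ν a p.1 p.2 ≠ 0).card := by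
    simp only [card_filter, sum_product]
    push_cast
    rfl
  have s4 : (Y.filter fun y => ν y ≠ 0).card ≤ 3 * 2 ^ (19 * a.length) := by
    refine (card_le_card (t := Y.filter Pr) fun y hy =>
      mem_filter.mpr ⟨(mem_filter.mp hy).1, hp y (mem_filter.mp hy).2⟩).trans ?_
    have := len_le a
    rw [hY]
    rcases hm : len a - 2 with _ | m
    · refine (card_filter_le _ _).trans ?_
      rw [card_W, pow_zero]
      exact Nat.succ_le_of_lt (by positivity)
    · rw [count_pr (k := 2) (by simp)]
      exact Nat.mul_le_mul_left _ (Nat.pow_le_pow_right (by norm_num) (by omega))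
  have s5 : (((W D a.length ×ˢ Y).filter fun p => soc ν a p.1 p.2 ≠ 0).card : ℝ) ≤
      (W D a.length).card + 3 * 2 ^ (19 * a.length) := by
    exact_mod_cast hs.trans (Nat.add_le_add_left s4 _)
  have s6 : 2 ^ (19 * a.length) * r ≤ (1 / 2) ^ a.length := by
    rw [hr, pow_mul, ← mul_pow]
    refine pow_le_pow_left₀ (by positivity) ?_ _
    have : (2 : ℝ) ^ 20 ≤ Fintype.card D := by exact_mod_cast hD
    rw [← div_eq_mul_inv, div_le_iff₀ hD0]
    linarith
  rw [s2, s3] at s1
  nlinarith

end Pool.Agent.P.MP_f3d782_pr.Q2
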