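import Mathlib
import Pool.Agent.P.MP_f3d782_pr.Q2.Soc

set_option autoImplicit false
set_option linter.unusedSectionVars false
set_option linter.unusedSimpArgs false

namespace Pool.Agent.P.MP_f3d782_pr.Q2

open Finset MeasureTheory Pool.Agent.P.MP_f3d782_pr

/-- The digits. -/
abbrev Dg : Type := Fin 6 × (Fin 5 → Bool × Fin 6)

/-- A code of the unordered pair. -/
def un (a b : Fin 4) : Fin 6 := ![![0, 0, 1, 2], ![0, 0, 3, 4], ![1, 3, 0, 5], ![2, 4, 5, 0]] a b

/-- The code of the pair of colors at `s`, `s + 1`. -/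
def enc (x : ℤ → Fin 4) (s : ℤ) : Bool × Fin 6 := (decide (x s < x (s + 1)), un (x s) (x (s + 1)))

/-- The bit of the block at `s`. -/
def bit (x : ℤ → Fin 4) (s : ℤ) : Bool := (enc x s).1

/-- The digit of the block at `s`. -/
def dig (x : ℤ → Fin 4) (s : ℤ) : Dg := ((enc x s).2, fun j => enc x (s + 3 * ((j : ℕ) + 1)))

/-- The start of the next block. -/
def nx (x : ℤ → Fin 4) (s : ℤ) : ℤ := s + (18 + (bit x s).toNat : ℕ)

/-- The bits along the walk. -/
def al (x : ℤ → Fin 4) : ℤ → ℕ → List Bool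
  | _, 0 => []
  | s, n + 1 => bit x s :: al x (nx x s) n

/-- The digits along the walk. -/
def dg (x : ℤ → Fin 4) : ℤ → ℕ → List Dg
  | _, 0 => []
  | s, n + 1 => dig x s :: dg x (nx x s) n

/-- The place of the walk after `n` steps. -/
def pos (x : ℤ → Fin 4) (s : ℤ) (n : ℕ) : ℤ := s + len (al x s n)

variable {x x' : ℤ → Fin 4}

@[simp] theorem length_al (s : ℤ) (n : ℕ) : (al x s n).length = n := by
  induction n generalizing s with
  | zero => rfl
  | succ n ih => simp [al, ih]

@[simp] theorem length_dg (s : ℤ) (n : ℕ) : (dg x s n).length = n := by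
  induction n generalizing s with
  | zero => rfl
  | succ n ih => simp [dg, ih]

@[simp] theorem pos_zero (s : ℤ) : pos x s 0 = s := by simp [pos, al, len]

theorem pos_succ (s : ℤ) (n : ℕ) : pos x s (n + 1) = pos x (nx x s) n := by
  simp only [pos, al, len, nx]
  push_cast
  ring

theorem al_add (s : ℤ) (m n : ℕ) : al x s (m + n) = al x s m ++ al x (pos x s m) n := by
  induction m generalizing s with
  | zero => simp [al]
  | succ m ih => rw [Nat.succ_add, al, ih, pos_succ]; rfl

theorem dg_add (s : ℤ) (m n : ℕ) : dg x s (m + n) = dg x s m ++ dg x (pos x s m) n := by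
  induction m generalizing s with
  | zero => simp [dg]
  | succ m ih => rw [Nat.succ_add, dg, ih, pos_succ]; rfl

theorem pos_add (s : ℤ) (m n : ℕ) : pos x s (m + n) = pos x (pos x s m) n := by
  rw [pos, al_add, len_append, pos, pos]
  push_cast
  ring

theorem le_pos (s : ℤ) (n : ℕ) : s + 18 * n ≤ pos x s n := by
  have := le_len (al x s n)
  rw [length_al] at this
  rw [pos]; omega

theorem pos_le (s : ℤ) (n : ℕ) : pos x s n ≤ s + 19 * n := by
  have := len_le (al x s n)
  rw [length_al] at this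
  rw [pos]; omega

theorem pos_mono (s : ℤ) {m n : ℕ} (h : m ≤ n) : pos x s m ≤ pos x s n := by
  obtain ⟨d, rfl⟩ := Nat.exists_eq_add_of_le h
  have := le_pos (x := x) (pos x s m) d
  rw [pos_add]; omega

theorem take_al (s : ℤ) {m n : ℕ} (h : m ≤ n) : (al x s n).take m = al x s m := by
  obtain ⟨d, rfl⟩ := Nat.exists_eq_add_of_le h
  rw [al_add, List.take_left' (by simp)]

theorem enc_congr {s : ℤ} (h : ∀ i, s ≤ i → i < s + 2 → x i = x' i) : enc x s = enc x' s := by
  rw [enc, enc, h s le_rfl (by omega), h (s + 1) (by omega) (by omega)]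

theorem bit_congr {s : ℤ} (h : ∀ i, s ≤ i → i < s + 2 → x i = x' i) : bit x s = bit x' s := by
  rw [bit, bit, enc_congr h]

theorem dig_congr {s : ℤ} (h : ∀ i, s ≤ i → i < s + 17 → x i = x' i) : dig x s = dig x' s := by
  rw [dig, dig, enc_congr fun i a b => h i a (by omega)]
  congr 1
  funext j
  exact enc_congr fun i a b => h i (by omega) (by omega)

theorem walk_congr {s : ℤ} {n : ℕ} (h : ∀ i, s ≤ i → i < pos x s n - 1 → x i = x' i) :
    al x' s n = al x s n ∧ dg x' s n = dg x s n := by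
  induction n generalizing s with
  | zero => exact ⟨rfl, rfl⟩
  | succ n ih =>
    have h1 := le_pos (x := x) (nx x s) n
    rw [pos_succ] at h
    have h2 : s + 18 ≤ nx x s := by rw [nx]; omega
    have b : bit x' s = bit x s := (bit_congr fun i a b => h i a (by omega)).symm
    have d : dig x' s = dig x s := (dig_congr fun i a b => h i a (by omega)).symm
    have e : nx x' s = nx x s := by rw [nx, nx, b]
    obtain ⟨i1, i2⟩ := ih (s := nx x s) fun i a b => h i (by omega) b
    simp only [al, dg, b, d, e, i1, i2, and_self]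

theorem walk_shift (h s : ℤ) (n : ℕ) : al (fun j => x (j + h)) s n = al x (s + h) n ∧
    dg (fun j => x (j + h)) s n = dg x (s + h) n := by
  have en : ∀ s, enc (fun j => x (j + h)) s = enc x (s + h) := fun s => by
    simp only [enc, add_right_comm]
  induction n generalizing s with
  | zero => exact ⟨rfl, rfl⟩
  | succ n ih =>
    have b : bit (fun j => x (j + h)) s = bit x (s + h) := by rw [bit, bit, en]
    have d : dig (fun j => x (j + h)) s = dig x (s + h) := by
      simp only [dig, en, add_right_comm]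
    have e : nx (fun j => x (j + h)) s + h = nx x (s + h) := by rw [nx, nx, b]; ring
    simp only [al, dg, b, d, ih, e, and_self]

/-- A word in which all walks merge. -/
def sw : List (Fin 4) :=
  [
   1, 0, 1, 2, 0, 1, 0, 1, 0, 1, 0, 1, 2, 0, 1, 0, 1, 0, 1, 0, 1, 2, 0, 1, 0, 1, 2, 1, 0, 1, 2,
   0, 1, 0, 1, 2, 1, 0, 1, 0, 1, 2, 0, 1, 0, 1, 0, 1, 0, 1, 2, 0, 1, 0, 1, 0, 1, 0, 1, 2, 0, 1,
   0, 1, 0, 1, 0, 1, 2, 0, 1, 0, 1, 0, 1, 0, 1, 0, 1, 0, 1, 2, 0, 1, 0, 1, 0, 1, 0, 1, 2, 0, 1,
   0, 1, 0, 1, 2, 0, 1, 0, 1, 0, 1, 0, 1, 2, 0, 1, 0, 1, 0, 1, 0, 1, 0, 1, 2, 0, 1, 0, 1, 0, 1,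
   0, 1, 2, 0, 1, 0, 1, 0, 1, 0, 1, 2, 0, 1, 0, 1, 0, 1, 0, 1, 2, 0, 1, 0, 1, 0, 1, 0, 1, 0, 1,
   0, 1, 0, 1, 0, 1, 0, 1, 0, 1, 0, 1, 0, 1, 0, 1, 0, 1, 2, 0, 1, 0, 1, 0, 1, 2, 0, 1, 0, 1, 0,
   1, 0, 1, 0, 1, 0, 1, 0, 1, 0, 1, 0, 1, 0, 1, 0, 1, 0, 1, 0, 1, 0, 1, 0, 1, 2, 0, 1, 0, 1, 2,
   0, 1, 0, 1, 0, 1, 0, 1, 0, 1, 0, 1, 0, 1, 0, 1, 0, 1, 0, 1, 0, 1, 0, 1, 0, 1, 0, 1, 0, 1, 0,
   1, 2, 0, 1, 2, 0, 1, 0, 1, 0, 1, 0, 1, 0, 1, 0, 1, 0, 1, 0, 1, 0, 1, 0, 1, 0, 1, 0, 1, 0, 1,
   0, 1, 0, 1, 0, 1, 0, 1, 2, 1, 0, 1, 0, 1, 0, 1, 0, 1, 0, 1, 0, 1, 0, 1, 0, 1, 0, 1, 0]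

/-- All walks that cross the word to the left of `s` visit `s`. -/
def Sync (x : ℤ → Fin 4) (s : ℤ) : Prop := wd x (s - 324) 308 = sw

/-- The walk from place `e` of the word reaches place 324. -/
def reach : ℕ → ℕ → Bool
  | 0, _ => false
  | f + 1, e => e == 324 ||
      (decide (e + 1 < 308) && reach f (e + (18 + (decide (sw.getD e 0 < sw.getD (e + 1) 0)).toNat)))

theorem reach_all : ∀ e < 19, reach 20 e = true := by decide +kernel

theorem pr_sw : Pr sw := by decide +kernel

theorem length_sw : sw.length = 308 := by decide +kernel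

theorem Sync.of_reach {s : ℤ} (h : Sync x s) (f e : ℕ) (hr : reach f e = true) :
    ∃ v, pos x (s - 324 + e) v = s := by
  induction f generalizing e with
  | zero => simp [reach] at hr
  | succ f ih =>
    simp only [reach, Bool.or_eq_true, beq_iff_eq, Bool.and_eq_true, decide_eq_true_eq] at hr
    rcases hr with rfl | ⟨h1, h2⟩
    · exact ⟨0, by simp⟩
    · obtain ⟨v, hv⟩ := ih _ h2
      have g : ∀ i, i < 308 → sw.getD i 0 = x (s - 324 + i) := fun i hi => by
        rw [← h, List.getD_eq_getElem _ _ (by simpa using hi), getElem_wd]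
      refine ⟨v + 1, Eq.trans ?_ hv⟩
      rw [pos_succ, nx, bit, enc, g e (by omega), g (e + 1) h1]
      push_cast
      simp only [add_assoc]

theorem Sync.hit {s : ℤ} (h : Sync x s) {t : ℤ} (ht : t ≤ s - 324) : ∃ v, pos x t v = s := by
  replace ht : t ≤ s - 324 + 18 := by omega
  induction hn : (s - t).toNat using Nat.strong_induction_on generalizing t with
  | _ n ih =>
    by_cases h1 : s - 324 ≤ t
    · obtain ⟨e, rfl⟩ : ∃ e : ℕ, t = s - 324 + e := ⟨(t - (s - 324)).toNat, by omega⟩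
      exact h.of_reach 20 e (reach_all e (by omega))
    · have := Bool.toNat_le (bit x t)
      obtain ⟨v, hv⟩ := ih (s - nx x t).toNat (by rw [nx]; omega) (t := nx x t)
        (by rw [nx]; omega) rfl
      exact ⟨v + 1, by rw [pos_succ, hv]⟩

variable (ν : List (Fin 3) → ℝ)

/-- The blocks `i, ..., j - 1` of the walk from `t` lie between consecutive cuts of level `k`,
their digit word has one partner, and the partner has color `c` at `site`. -/
def FC (x : ℤ → Fin 4) (t : ℤ) (i j k : ℕ) (site : ℤ) (c : Fin 3) : Prop :=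
  i < j ∧ Cut k (al x t i) ∧ Cut k (al x t j) ∧ (∀ q, i < q → q < j → ¬ Cut k (al x t q)) ∧
    pos x t i ≤ site ∧ ∃ y, Uniq ν (al x (pos x t i) (j - i)) (dg x (pos x t i) (j - i)) y ∧
      y[(site - pos x t i).toNat]? = some c

/-- A certificate for the color at `site` that reads only the sites in `[lo, hi)`. -/
def Cert (x : ℤ → Fin 4) (lo hi site : ℤ) (c : Fin 3) : Prop :=
  ∃ s i j k, Sync x s ∧ lo ≤ s - 324 ∧ pos x s j ≤ hi ∧ 1 ≤ k ∧ FC ν x s i j k site c

variable {ν} {t s site lo hi : ℤ} {i j k i' j' k' v : ℕ} {c c' : Fin 3}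

theorem cut_rel {q : ℕ} (h : Cut k (al x t q)) (hi : Cut k' (al x t i)) (hq : i < q) :
    Cut k (al x (pos x t i) (q - i)) := by
  rw [show q = i + (q - i) by omega, al_add] at h
  exact h.right hi (List.length_pos_iff.mp (by simp; omega))

theorem cut_abs {q : ℕ} (h : Cut k (al x (pos x t i) q)) : Cut k (al x t (i + q)) := by
  rw [al_add]; exact h.left _

theorem FC.fwd (hv : pos x t v = s) (h : FC ν x s i j k site c) :
    FC ν x t (v + i) (v + j) k site c := by
  subst hv
  obtain ⟨h1, h2, h3, h4, h5, h6⟩ := h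
  refine ⟨by omega, cut_abs h2, cut_abs h3, fun q q1 q2 hq => h4 (q - v) (by omega) (by omega) ?_,
    by rwa [pos_add], by rwa [pos_add, Nat.add_sub_add_left]⟩
  have := cut_rel hq (cut_abs h2) q1
  rw [pos_add] at this
  have := cut_abs this
  rwa [show i + (q - (v + i)) = q - v by omega] at this

theorem FC.bwd (hv : pos x t v = s) (hi : k + 1 ≤ i) (h : FC ν x t (v + i) (v + j) k site c) :
    FC ν x s i j k site c := by
  subst hv
  obtain ⟨h1, h2, h3, h4, h5, h6⟩ := h
  rw [al_add] at h2 h3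
  rw [pos_add] at h5 h6
  exact ⟨by omega, h2.of_length (by simpa using hi), h3.of_length (by simp; omega),
    fun q q1 q2 hq => h4 (v + q) (by omega) (by omega) (cut_abs hq), h5,
    by rwa [Nat.add_sub_add_left] at h6⟩

theorem FC.lt (h : FC ν x t i j k site c) : site + 2 < pos x t j := by
  obtain ⟨h1, -, -, -, h5, y, h6, h7⟩ := h
  have := (List.getElem?_eq_some_iff.mp h7).1
  rw [h6.1] at this
  rw [show j = i + (j - i) by omega, pos_add, pos]
  omega

theorem FC.eq_of_le (hk : 1 ≤ k) (hkk : k ≤ k') (h : FC ν x t i j k site c)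
    (h' : FC ν x t i' j' k' site c') : c = c' := by
  have l := h.lt
  have l' := h'.lt
  obtain ⟨h1, h2, h3, h4, h5, y, h6, h7⟩ := h
  obtain ⟨g1, g2, g3, -, g5, y', g6, g7⟩ := h'
  have a1 : i < j' := lt_of_not_ge fun a => by have := pos_mono (x := x) t a; omega
  have a2 : i' < j := lt_of_not_ge fun a => by have := pos_mono (x := x) t a; omega
  have b1 : i' ≤ i := le_of_not_gt fun a => h4 i' a a2 (g2.mono hkk)
  have b2 : j ≤ j' := le_of_not_gt fun a => h4 j' a1 a (g3.mono hkk)
  obtain ⟨u, rfl⟩ := Nat.exists_eq_add_of_le b1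
  obtain ⟨n, rfl⟩ := Nat.exists_eq_add_of_le h1.le
  obtain ⟨w, rfl⟩ := Nat.exists_eq_add_of_le b2
  rw [Nat.add_sub_cancel_left] at h6
  rw [show i' + u + n + w - i' = u + n + w by omega] at g6
  rw [pos_add] at h5 h6 h7
  set p := pos x t i' with hp
  have key := soc_node (ν := ν) hk (b := al x (pos x p u) n) (List.length_pos_iff.mp (by simp; omega))
    (al x p u) (al x (pos x p (u + n)) w) (by
      rcases Nat.eq_zero_or_pos u with rfl | hu
      · exact Or.inl rfl
      · exact Or.inr (by simpa using cut_rel h2 g2 (by omega)))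
    (Or.inr (by
      rw [← al_add]
      simpa [add_assoc] using cut_rel h3 g2 (by omega)))
    (fun q q1 q2 hq => h4 (i' + (u + q)) (by omega) (by simp at q2; omega) (cut_abs (by
      rwa [take_al _ (by simpa using q2.le), ← al_add] at hq)))
    (ω := dg x p (u + n + w)) (y := y') (by simp [add_assoc])
    (by rw [← al_add, ← al_add]; exact g6.1) (by rw [← al_add, ← al_add]; exact g6.2.1)
  rw [length_al, length_al, dg_add, dg_add, List.append_assoc, List.drop_left' (by simp),
    List.take_left' (by simp)] at key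
  have e := h6.2.2 _ (by
    have := g6.1
    rw [al_add, al_add, len_append, len_append] at this
    rw [List.length_take, List.length_drop, this]; omega) key
  have lt := (List.getElem?_eq_some_iff.mp h7).1
  rw [h6.1] at lt
  rw [← e, List.getElem?_take_of_lt lt, List.getElem?_drop] at h7
  rw [show (site - p).toNat = len (al x p u) + (site - pos x p u).toNat by
    rw [pos] at h5 ⊢; omega, h7] at g7
  exact Option.some.inj g7

theorem Cert.unique {lo' hi' : ℤ} (h : Cert ν x lo hi site c) (h' : Cert ν x lo' hi' site c') :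
    c = c' := by
  obtain ⟨s, i, j, k, h1, -, -, h2, h3⟩ := h
  obtain ⟨s', i', j', k', g1, -, -, g2, g3⟩ := h'
  obtain ⟨v, hv⟩ := h1.hit (t := min s s' - 324) (by omega)
  obtain ⟨v', hv'⟩ := g1.hit (t := min s s' - 324) (by omega)
  rcases le_total k k' with a | a
  · exact (h3.fwd hv).eq_of_le h2 a (g3.fwd hv')
  · exact ((g3.fwd hv').eq_of_le g2 a (h3.fwd hv)).symm

theorem dep_cert : Dep {x | Cert ν x lo hi site c} lo hi := by
  rintro x x' H ⟨s, i, j, k, h1, h2, h3, h4, g1, g2, g3, g4, g5, y, g6, g7⟩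
  have s1 := le_pos (x := x) s j
  have e : ∀ q ≤ j, al x' s q = al x s q := fun q hq => (walk_congr fun i a b => H i (by omega) (by
    have := pos_mono (x := x) s hq; omega)).1
  have e' : ∀ q ≤ j, pos x' s q = pos x s q := fun q hq => by rw [pos, pos, e q hq]
  have s2 := le_pos (x := x) s i
  obtain ⟨e1, e2⟩ := walk_congr (x := x) (x' := x') (s := pos x s i) (n := j - i) fun q a b =>
    H q (by omega) (by rw [← pos_add, show i + (j - i) = j by omega] at b; omega)
  refine ⟨s, i, j, k, (wd_congr fun i a b => (H i (by omega) (by push_cast at b; omega)).symm).trans h1,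
    h2, by rwa [e' j le_rfl], h4, g1, by rwa [e i g1.le], by rwa [e j le_rfl],
    fun q a b => by rw [e q b.le]; exact g4 q a b, by rwa [e' i g1.le], y, ?_, ?_⟩
  · rwa [e' i g1.le, e1, e2]
  · rwa [e' i g1.le]

theorem Cert.shift (h : Cert ν x lo hi site c) (d : ℤ) :
    Cert ν (fun j => x (j + d)) (lo - d) (hi - d) (site - d) c := by
  obtain ⟨s, i, j, k, h1, h2, h3, h4, g1, g2, g3, g4, g5, y, g6, g7⟩ := h
  have e : ∀ s n, al (fun j => x (j + d)) (s - d) n = al x s n := fun s n => by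
    rw [(walk_shift d _ n).1, sub_add_cancel]
  have e2 : ∀ s n, dg (fun j => x (j + d)) (s - d) n = dg x s n := fun s n => by
    rw [(walk_shift d _ n).2, sub_add_cancel]
  have e' : ∀ n, pos (fun j => x (j + d)) (s - d) n = pos x s n - d := fun n => by
    rw [pos, pos, e]; ring
  refine ⟨s - d, i, j, k, ?_, by omega, by rw [e']; omega, h4, g1, by rwa [e], by rwa [e],
    fun q a b => by rw [e]; exact g4 q a b, by rw [e']; omega, y, by rwa [e', e, e2], ?_⟩
  · rw [Sync, wd_shift, show s - d - 324 + d = s - 324 by ring]; exact h1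
  · rwa [e', sub_sub_sub_cancel_right]

open Classical in
/-- The color at the origin. -/
noncomputable def f0 (ν : List (Fin 3) → ℝ) (x : ℤ → Fin 4) : Fin 3 :=
  if h : ∃ c lo hi, Cert ν x lo hi 0 c then h.choose else 0

/-- The factor map. -/
noncomputable def FF (ν : List (Fin 3) → ℝ) (x : ℤ → Fin 4) (i : ℤ) : Fin 3 :=
  f0 ν fun j => x (j + i)

theorem Cert.f0_eq (h : Cert ν x lo hi 0 c) : f0 ν x = c := by
  have h' : ∃ c lo hi, Cert ν x lo hi 0 c := ⟨c, lo, hi, h⟩
  rw [f0, dif_pos h']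
  obtain ⟨_, _, g⟩ := h'.choose_spec
  exact g.unique h

theorem Cert.FF_eq (h : Cert ν x lo hi site c) : FF ν x site = c := by
  have := h.shift site
  rw [sub_self] at this
  exact this.f0_eq

theorem meas_FF (ν : List (Fin 3) → ℝ) : Measurable (FF ν) := by
  refine measurable_pi_lambda _ fun i => Measurable.comp (g := f0 ν) ?_ (meas_shift i)
  have m : ∀ c, MeasurableSet {x | ∃ lo hi, Cert ν x lo hi 0 c} := fun c => by
    simp only [Set.ofPred_exists]
    exact .iUnion fun lo => .iUnion fun hi => dep_cert.meas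
  refine measurable_to_countable' fun c => ?_
  have : f0 ν ⁻¹' {c} = {x | ∃ lo hi, Cert ν x lo hi 0 c} ∪
      ({x | c = 0} ∩ (⋃ c, {x | ∃ lo hi, Cert ν x lo hi 0 c})ᶜ) := by
    ext x
    simp only [Set.mem_preimage, Set.mem_singleton_iff, Set.mem_union, Set.mem_ofPred_eq,
      Set.mem_inter_iff, Set.mem_compl_iff, Set.mem_iUnion]
    by_cases h : ∃ c lo hi, Cert ν x lo hi 0 c
    · obtain ⟨c', lo, hi, g⟩ := h
      rw [g.f0_eq]
      exact ⟨fun e => Or.inl ⟨lo, hi, e ▸ g⟩, fun e => e.elim (fun ⟨_, _, g'⟩ => g.unique g')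
        fun e => absurd ⟨c', lo, hi, g⟩ e.2⟩
    · rw [f0, dif_neg h]
      exact ⟨fun e => Or.inr ⟨e.symm, h⟩, fun e => e.elim (fun g => absurd ⟨c, g⟩ h) fun e => e.1.symm⟩
  rw [this]
  exact (m c).union ((MeasurableSet.const _).inter (MeasurableSet.iUnion m).compl)

end Pool.Agent.P.MP_f3d782_pr.Q2
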