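import Mathlib
import Pool.Agent.P.MP_f3d782_pr.Q2.Path

set_option autoImplicit false
set_option linter.unusedSectionVars false
set_option linter.unusedSimpArgs false

namespace Pool.Agent.P.MP_f3d782_pr.Q2

open Finset MeasureTheory Pool.Agent.P.MP_f3d782_pr

variable {P : Measure (ℤ → Fin 4)}

theorem enc_prob (hP : Law P (nu 4)) (s : ℤ) (e : Bool × Fin 6) :
    P.real {x | enc x s = e} = 1 / 12 := by
  have h := hP.prob (fun l => (decide (l.getD 0 0 < l.getD 1 0), un (l.getD 0 0) (l.getD 1 0)) = e) s 2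
  have e1 : ∀ x : ℤ → Fin 4, wd x s 2 = [x s, x (s + 1)] := fun x => by simp [wd]
  have e2 : ∀ a b : Fin 4, nu 4 [a, b] = if a ≠ b then 1 / 12 else 0 := fun a b => by
    by_cases hab : a = b <;> simp [nu, B, Bn, S, T_four, hab, Nat.factorial]
    norm_num
  have e3 : ∀ e : Bool × Fin 6, (univ.filter fun p : Fin 4 × Fin 4 =>
      (decide (p.1 < p.2), un p.1 p.2) = e ∧ p.1 ≠ p.2).card = 1 := by decide
  simp only [e1] at h
  rw [sum_W_succ] at h
  simp only [sum_W_succ (m := 0), show W (Fin 4) 0 = {[]} from rfl, sum_singleton, e2,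
    List.getD_cons_zero, List.getD_cons_succ, ← ite_and] at h
  rw [← Fintype.sum_prod_type', ← sum_filter, sum_const, e3] at h
  simpa [enc] using h

theorem mark_prob (hP : Law P (nu 4)) (s : ℤ) (a : Bool) (d : Dg) :
    P.real {x | bit x s = a ∧ dig x s = d} = (1 / 12) ^ 6 := by
  let e : ℕ → Bool × Fin 6 := fun j => match j with
    | 0 => (a, d.1)
    | j + 1 => if h : j < 5 then d.2 ⟨j, h⟩ else (a, d.1)
  have h := hP.prod gap_four (fun j => {x | enc x (s + 3 * j) = e j}) (fun j => s + 3 * j)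
    (fun j x x' H hx => (enc_congr fun i a b => (H i a (by push_cast; omega)).symm).trans hx)
    (fun i j h => by simp only; omega) 6
  simp only [enc_prob hP, prod_const, card_range] at h
  rw [← h]
  congr 1
  ext x
  simp only [Set.mem_ofPred_eq, bit, dig, Prod.ext_iff (x := (_, _)) (y := d), funext_iff]
  constructor
  · rintro ⟨h1, h2, h3⟩ j hj
    rcases j with _ | j
    · simpa [e] using Prod.ext h1 h2
    · simpa [e, show j < 5 by omega] using h3 ⟨j, by omega⟩
  · intro H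
    have h0 : enc x s = (a, d.1) := by simpa [e] using H 0 (by omega)
    refine ⟨by rw [h0], by rw [h0], fun j => ?_⟩
    simpa [e] using H (j + 1) (by omega)

theorem dep_walk (ψ : List Bool → List Dg → Prop) (t : ℤ) (n : ℕ) :
    Dep {x | ψ (al x t n) (dg x t n)} t (t + 19 * n) := fun x x' H hx => by
  have := pos_le (x := x) t n
  obtain ⟨e1, e2⟩ := walk_congr (x := x) (x' := x') (s := t) (n := n) fun i a b => H i a (by omega)
  simpa only [Set.mem_ofPred_eq, e1, e2] using hx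

theorem walk_prob (hP : Law P (nu 4)) (t : ℤ) (n : ℕ) {a : List Bool} {ω : List Dg}
    (ha : a.length = n) (hω : ω.length = n) :
    P.real {x | al x t n = a ∧ dg x t n = ω} = ((1 / 12) ^ 6) ^ n := by
  have := hP.1
  induction n generalizing t a ω with
  | zero =>
    rw [List.length_eq_zero_iff.mp ha, List.length_eq_zero_iff.mp hω]
    simp [al, dg]
  | succ n ih =>
    obtain ⟨b, a, rfl⟩ := List.exists_cons_of_length_eq_add_one ha
    obtain ⟨d, ω, rfl⟩ := List.exists_cons_of_length_eq_add_one hω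
    have e : {x | al x t (n + 1) = b :: a ∧ dg x t (n + 1) = d :: ω} =
        {x | bit x t = b ∧ dig x t = d} ∩
          {x | al x (t + (18 + b.toNat : ℕ)) n = a ∧ dg x (t + (18 + b.toNat : ℕ)) n = ω} := by
      ext x
      simp only [al, dg, nx, List.cons.injEq, Set.mem_inter_iff, Set.mem_ofPred_eq]
      constructor
      · rintro ⟨⟨rfl, h1⟩, h2, h3⟩
        exact ⟨⟨rfl, h2⟩, h1, h3⟩
      · rintro ⟨⟨rfl, h2⟩, h1, h3⟩
        exact ⟨⟨rfl, h1⟩, h2, h3⟩
    have d1 : Dep {x | bit x t = b ∧ dig x t = d} t (t + 17) := fun x x' H hx =>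
      ⟨(bit_congr fun i a b => (H i a (by omega)).symm).trans hx.1,
        (dig_congr fun i a b => (H i a b).symm).trans hx.2⟩
    rw [e, hP.indep gap_four d1 ((dep_walk (fun a' ω' => a' = a ∧ ω' = ω)
      (t + (18 + b.toNat : ℕ)) n).mono (by push_cast; omega) le_rfl),
      mark_prob hP, ih _ (by simpa using ha) (by simpa using hω), pow_succ' _ n]

theorem card_Dg : Fintype.card Dg = 1492992 := by simp [Dg]

theorem walk_sum (hP : Law P (nu 4)) (ψ : List Bool → List Dg → Prop) [∀ a ω, Decidable (ψ a ω)]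
    (t : ℤ) (n : ℕ) : P.real {x | ψ (al x t n) (dg x t n)} = ∑ a ∈ W Bool n, (1 / 2) ^ n *
      ∑ ω ∈ W Dg n, if ψ a ω then (Fintype.card Dg : ℝ)⁻¹ ^ n else 0 := by
  have := hP.1
  have e : {x | ψ (al x t n) (dg x t n)} = ⋃ p ∈ (W Bool n ×ˢ W Dg n).filter (fun p => ψ p.1 p.2),
      {x | al x t n = p.1 ∧ dg x t n = p.2} := by
    ext x
    simp only [Set.mem_ofPred_eq, Set.mem_iUnion, mem_filter, mem_product, mem_W, exists_prop]
    exact ⟨fun h => ⟨(_, _), ⟨⟨length_al _ _, length_dg _ _⟩, h⟩, rfl, rfl⟩,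
      fun ⟨p, h1, h2, h3⟩ => h2 ▸ h3 ▸ h1.2⟩
  rw [e, measureReal_biUnion_finset, sum_filter, sum_product]
  · refine sum_congr rfl fun a ha => ?_
    rw [mul_sum]
    refine sum_congr rfl fun ω hω => ?_
    split_ifs
    · rw [walk_prob hP t n (mem_W.mp ha) (mem_W.mp hω), ← mul_pow, card_Dg]
      norm_num
    · simp
  · intro p _ p' _ hne
    exact Set.disjoint_left.mpr fun x hx hx' =>
      hne (Prod.ext (hx.1.symm.trans hx'.1) (hx.2.symm.trans hx'.2))
  · exact fun p _ => (dep_walk (fun a ω => a = p.1 ∧ ω = p.2) t n).meas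

theorem sum_Dg (n : ℕ) (r : ℝ) : ∑ _ω ∈ W Dg n, (Fintype.card Dg : ℝ)⁻¹ ^ n * r = r := by
  rw [sum_const, card_W, nsmul_eq_mul]
  push_cast
  rw [← mul_assoc, ← mul_pow, mul_inv_cancel₀ (by rw [card_Dg]; norm_num), one_pow, one_mul]

theorem al_prob (hP : Law P (nu 4)) (t : ℤ) (n : ℕ) {a : List Bool} (ha : a.length = n) :
    P.real {x | al x t n = a} = (1 / 2) ^ n := by
  rw [walk_sum hP (fun a' _ => a' = a), sum_eq_single_of_mem a (mem_W.mpr ha)
    fun b _ hb => by simp [hb]]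
  simpa using sum_Dg n 1

/-- The blocks `i, ..., j - 1` lie between consecutive cuts and cover the window. -/
def Adm (k : ℕ) (t lo : ℤ) (n : ℕ) (a : List Bool) (i j : ℕ) : Prop :=
  i < j ∧ j ≤ a.length ∧ Cut k (a.take i) ∧ Cut k (a.take j) ∧
    (∀ q, i < q → q < j → ¬ Cut k (a.take q)) ∧ t + len (a.take i) ≤ lo ∧
      lo + n + 2 ≤ t + len (a.take j)

/-- There are such blocks, and the partner of their digit word is unique and has property `φ`
in the window. -/
def Fine (ν : List (Fin 3) → ℝ) (φ : List (Fin 3) → Prop) (k : ℕ) (t lo : ℤ) (n : ℕ)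
    (a : List Bool) (ω : List Dg) : Prop :=
  ∃ i j, Adm k t lo n a i j ∧ ∃ y, Uniq ν ((a.drop i).take (j - i)) ((ω.drop i).take (j - i)) y ∧
    φ ((y.drop (lo - t - len (a.take i)).toNat).take n)

variable {ν : List (Fin 3) → ℝ} {Q : Measure (ℤ → Fin 3)}

open Classical in
theorem fine_prob (hP : Law P (nu 4)) (hQ : Law Q ν) (hg : Gap 2 ν) (hp : ∀ y, ν y ≠ 0 → Pr y)
    (φ : List (Fin 3) → Prop) (k : ℕ) (t lo : ℤ) (n J : ℕ) :
    ((∑ w ∈ W (Fin 3) n, if φ w then ν w else 0) - 3 * (1 / 2) ^ k) *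
        P.real {x | ∃ i j, Adm k t lo n (al x t J) i j} ≤
      P.real {x | Fine ν φ k t lo n (al x t J) (dg x t J)} := by
  rw [walk_sum hP (fun a _ => ∃ i j, Adm k t lo n a i j), walk_sum hP (Fine ν φ k t lo n), mul_sum]
  refine sum_le_sum fun a ha => ?_
  rw [mul_left_comm]
  refine mul_le_mul_of_nonneg_left ?_ (by positivity)
  have c0 : ∀ m : ℕ, (0 : ℝ) ≤ (Fintype.card Dg : ℝ)⁻¹ ^ m := fun m => by positivity
  by_cases h : ∃ i j, Adm k t lo n a i j
  swap
  · simp only [h, if_false, sum_const_zero, mul_zero]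
    exact sum_nonneg fun ω _ => by split_ifs; exacts [c0 _, le_rfl]
  have e1 := sum_Dg J 1
  simp only [mul_one] at e1
  simp only [h, if_true, e1, mul_one]
  obtain ⟨i, j, h⟩ := h
  have hl := mem_W.mp ha
  obtain ⟨m, rfl⟩ := Nat.exists_eq_add_of_le h.1.le
  obtain ⟨r, rfl⟩ := Nat.exists_eq_add_of_le (hl ▸ h.2.1)
  set b := (a.drop i).take m with hb
  have lb : b.length = m := by simp [hb]; omega
  have tk : a.take (i + m) = a.take i ++ b := List.take_add ..
  have km : k + 1 ≤ m := by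
    have := ((tk ▸ h.2.2.2.1).right h.2.2.1 (List.length_pos_iff.mp (by have := h.1; omega))).length
    omega
  have key := count_uniq (D := Dg) hQ hg hp (by rw [card_Dg]; norm_num) b
    (fun y => φ ((y.drop (lo - t - len (a.take i)).toNat).take n))
  obtain ⟨u, hu⟩ : ∃ u, len b - 2 = (lo - t - len (a.take i)).toNat + n + u := by
    have h1 := h.2.2.2.2.2.1
    have h2 := h.2.2.2.2.2.2
    rw [tk, len_append] at h2
    exact ⟨len b - 2 - (lo - t - len (a.take i)).toNat - n, by omega⟩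
  rw [hu, hQ.marg, lb] at key
  have p1 : (1 / 2 : ℝ) ^ m ≤ (1 / 2) ^ k := pow_le_pow_of_le_one (by norm_num) (by norm_num) (by omega)
  refine (le_trans (by linarith) key).trans ?_
  rw [← sum_Dg i (∑ ω ∈ W Dg m, _), sum_W_append, sum_W_append]
  refine sum_le_sum fun ω1 h1 => ?_
  rw [mul_sum]
  refine sum_le_sum fun ω2 h2 => ?_
  rw [← sum_Dg r (_ * _)]
  refine sum_le_sum fun ω3 _ => ?_
  split_ifs with c1 c2 c2
  · rw [pow_add, pow_add, mul_comm]
  · refine absurd ⟨i, i + m, h, ?_⟩ c2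
    rwa [Nat.add_sub_cancel_left, List.append_assoc, List.drop_left' (mem_W.mp h1),
      List.take_left' (mem_W.mp h2)]
  · simp
  · simp

end Pool.Agent.P.MP_f3d782_pr.Q2
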