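import Mathlib
import Pool.Agent.P.MP_f3d782_pr.Q2.Walk

set_option autoImplicit false
set_option linter.unusedSectionVars false
set_option linter.unusedSimpArgs false

namespace Pool.Agent.P.MP_f3d782_pr.Q2

open Finset MeasureTheory Pool.Agent.P.MP_f3d782_pr

variable {P : Measure (ℤ → Fin 4)} {ν : List (Fin 3) → ℝ} {Q : Measure (ℤ → Fin 3)}

/-- The bits `1, ..., 1, 0`. -/
def pat (k : ℕ) : List Bool := List.replicate k true ++ [false]

theorem length_pat (k : ℕ) : (pat k).length = k + 1 := by simp [pat]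

theorem len_pat (k : ℕ) : len (pat k) = 19 * k + 18 := by
  induction k with
  | zero => rfl
  | succ k ih =>
    have : pat (k + 1) = true :: pat k := rfl
    rw [this, len, ih]
    simp only [Bool.toNat_true]
    omega

/-- All walks merge at `s` and then show the bits of a cut. -/
def Mk (k : ℕ) (x : ℤ → Fin 4) (s : ℤ) : Prop := Sync x s ∧ al x s (k + 1) = pat k

theorem dep_pat (k : ℕ) (s : ℤ) : Dep {x | al x s (k + 1) = pat k} s (s + (19 * k + 17)) :=
  fun x x' H hx => (walk_congr fun i a b => H i a (by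
    rw [pos, show al x s (k + 1) = pat k from hx, len_pat] at b
    push_cast at b
    omega)).1.trans hx

theorem dep_sync (s : ℤ) : Dep {x | Sync x s} (s - 324) (s - 1) :=
  (dep_wd (· = sw) (s - 324) 308).mono le_rfl (by push_cast; omega)

theorem c_pos : 0 < nu 4 sw :=
  div_pos (by exact_mod_cast B_pos pr_sw) (by exact_mod_cast T_four_pos _)

theorem c_le (hP : Law P (nu 4)) : nu 4 sw ≤ 1 := by
  have := hP.1
  rw [← hP.2 0 sw]
  exact measureReal_le_one

theorem mk_prob (hP : Law P (nu 4)) (k : ℕ) (s : ℤ) :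
    P.real {x | Mk k x s} = nu 4 sw * (1 / 2) ^ (k + 1) := by
  have := hP.indep gap_four (dep_sync s) ((dep_pat k s).mono (by push_cast; omega) le_rfl)
  rw [al_prob hP s _ (length_pat k)] at this
  rw [← hP.2 (s - 324) sw, length_sw]
  exact this

theorem dep_mk (k : ℕ) (s : ℤ) : Dep {x | Mk k x s} (s - 324) (s + (19 * k + 17)) :=
  ((dep_sync s).mono le_rfl (by omega)).inter ((dep_pat k s).mono (by omega) le_rfl)

theorem none_prob (hP : Law P (nu 4)) (k M : ℕ) (b : ℤ) :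
    P.real {x | ∀ u < M, ¬ Mk k x (b + (19 * k + 342) * u + 324)} =
      (1 - nu 4 sw * (1 / 2) ^ (k + 1)) ^ M := by
  have := hP.1
  have h := hP.prod gap_four (fun u => {x | Mk k x (b + (19 * k + 342) * u + 324)}ᶜ)
    (fun u => b + (19 * k + 342) * u)
    (fun u => (dep_mk k _).compl.mono (by omega) (by push_cast; linarith))
    (fun i j h => by
      have : (i : ℤ) ≤ j := by exact_mod_cast h
      simp only
      nlinarith) M
  simp only [probReal_compl_eq_one_sub (dep_mk k _).meas, mk_prob hP, prod_const, card_range] at h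
  exact h

theorem Mk.cut {k : ℕ} {x : ℤ → Fin 4} {s t : ℤ} (h : Mk k x s) (ht : t ≤ s - 324) :
    ∃ v, pos x t v = s ∧ Cut k (al x t (v + (k + 1))) ∧ pos x t (v + (k + 1)) = s + (19 * k + 18) := by
  obtain ⟨v, hv⟩ := h.1.hit ht
  refine ⟨v, hv, cut_abs (by rw [hv, h.2]; exact ⟨[], rfl⟩), ?_⟩
  rw [pos_add, hv, pos, h.2, len_pat]
  push_cast
  ring

theorem pat_of_cut {k q : ℕ} {x : ℤ → Fin 4} {t : ℤ} (h : Cut k (al x t q)) :
    al x (pos x t q - (19 * k + 18)) (k + 1) = pat k := by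
  have hl := h.length
  rw [length_al] at hl
  obtain ⟨u, rfl⟩ := Nat.exists_eq_add_of_le' hl
  obtain ⟨a, e⟩ := h
  rw [al_add] at e
  have e2 : al x (pos x t u) (k + 1) = pat k := (List.append_inj' e (by simp)).2
  rw [pos_add, pos, e2, len_pat]
  push_cast
  rw [add_sub_cancel_right, e2]

/-- The good event: cuts on both sides of the window and none inside. -/
def Gd (k M : ℕ) (lo : ℤ) (n : ℕ) (x : ℤ → Fin 4) : Prop :=
  (∃ u < M, Mk k x (lo - (19 * k + 342) * M + (19 * k + 342) * u + 324)) ∧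
  (∃ u < M, Mk k x (lo + n + (19 * k + 342) * u + 324)) ∧
  ∀ p ∈ Ioo lo (lo + n + 2), al x (p - (19 * k + 18)) (k + 1) ≠ pat k

theorem gd_prob (hP : Law P (nu 4)) (k M : ℕ) (lo : ℤ) (n : ℕ) : P.real {x | ¬ Gd k M lo n x} ≤
    2 * (1 - nu 4 sw * (1 / 2) ^ (k + 1)) ^ M + (n + 1) * (1 / 2) ^ k := by
  have := hP.1
  have h : {x | ¬ Gd k M lo n x} ⊆
      ({x | ∀ u < M, ¬ Mk k x (lo - (19 * k + 342) * M + (19 * k + 342) * u + 324)} ∪
      {x | ∀ u < M, ¬ Mk k x (lo + n + (19 * k + 342) * u + 324)}) ∪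
      ⋃ p ∈ Ioo lo (lo + n + 2), {x | al x (p - (19 * k + 18)) (k + 1) = pat k} := by
    intro x hx
    simp only [Gd, Set.mem_ofPred_eq, Set.mem_union, Set.mem_iUnion, not_and_or, not_exists,
      not_forall, ne_eq, not_not, or_assoc] at hx ⊢
    refine hx.imp (fun h u hu => (h u).resolve_left (not_not.mpr hu))
      (Or.imp_left fun h u hu => (h u).resolve_left (not_not.mpr hu))
  refine (measureReal_mono h).trans ((measureReal_union_le _ _).trans (add_le_add
    ((measureReal_union_le _ _).trans ?_) ((measureReal_biUnion_finset_le _ _).trans ?_)))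
  · rw [none_prob hP, none_prob hP, two_mul]
  · simp only [al_prob hP _ _ (length_pat k), sum_const, Int.card_Ioo, nsmul_eq_mul]
    rw [show (lo + n + 2 - lo - 1).toNat = n + 1 by omega]
    push_cast
    gcongr _ * ?_
    exact pow_le_pow_of_le_one (by norm_num) (by norm_num) (by omega)

theorem Gd.cuts {k M n : ℕ} {lo : ℤ} {x : ℤ → Fin 4} (h : Gd k M lo n x) :
    ∃ s v j0, Sync x s ∧ lo - (19 * k + 342) * M ≤ s - 324 ∧
      pos x (lo - (19 * k + 342) * M) v = s ∧ Cut k (al x (lo - (19 * k + 342) * M) (v + (k + 1))) ∧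
      pos x (lo - (19 * k + 342) * M) (v + (k + 1)) ≤ lo ∧
      Cut k (al x (lo - (19 * k + 342) * M) j0) ∧ lo + n + 2 ≤ pos x (lo - (19 * k + 342) * M) j0 ∧
      pos x (lo - (19 * k + 342) * M) j0 ≤ lo + n + (19 * k + 342) * M := by
  obtain ⟨⟨u, u1, u2⟩, ⟨w, w1, w2⟩, -⟩ := h
  have a1 : (19 * k + 342 : ℤ) * (u + 1) ≤ (19 * k + 342) * M :=
    mul_le_mul_of_nonneg_left (by exact_mod_cast u1) (by positivity)
  have a2 : (19 * k + 342 : ℤ) * (w + 1) ≤ (19 * k + 342) * M :=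
    mul_le_mul_of_nonneg_left (by exact_mod_cast w1) (by positivity)
  have a3 : (0 : ℤ) ≤ (19 * k + 342) * u := by positivity
  have a4 : (0 : ℤ) ≤ (19 * k + 342) * w := by positivity
  have a5 : (0 : ℤ) ≤ (19 * k + 342) * M := by positivity
  obtain ⟨v, v1, v2, v3⟩ := u2.cut (t := lo - (19 * k + 342) * M) (by linarith)
  obtain ⟨v', -, v5, v6⟩ := w2.cut (t := lo - (19 * k + 342) * M) (by linarith)
  exact ⟨_, v, _, u2.1, by linarith, v1, v2, by linarith, v5, by linarith, by linarith⟩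

theorem Gd.adm {k M n : ℕ} {lo : ℤ} {x : ℤ → Fin 4} (h : Gd k M lo n x) :
    ∃ i j, Adm k (lo - (19 * k + 342) * M) lo n
      (al x (lo - (19 * k + 342) * M) (n + 2 * ((19 * k + 342) * M))) i j := by
  classical
  obtain ⟨s, v, j0, -, -, -, c1, c2, c3, c4, c5⟩ := h.cuts
  have hm := h.2.2
  have e : ((19 * k + 342) * M : ℤ) = ((19 * k + 342) * M : ℕ) := by push_cast; rfl
  rw [e] at c1 c2 c3 c4 c5 ⊢
  clear e
  generalize (19 * k + 342) * M = T at *
  generalize ht : lo - T = t at *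
  have b1 := le_pos (x := x) t j0
  have lt : ∀ a b, pos x t a < pos x t b → a < b := fun a b h =>
    lt_of_not_ge fun g => by have := pos_mono (x := x) t g; omega
  set i := Nat.findGreatest (fun q => Cut k (al x t q) ∧ pos x t q ≤ lo) j0 with hi
  have i1 : Cut k (al x t i) ∧ pos x t i ≤ lo :=
    Nat.findGreatest_spec (P := fun q => Cut k (al x t q) ∧ pos x t q ≤ lo)
      (lt _ j0 (by omega)).le ⟨c1, c2⟩
  have ex : ∃ q, i < q ∧ Cut k (al x t q) := ⟨j0, lt _ _ (by omega), c3⟩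
  have j1 := Nat.find_spec ex
  have j2 : Nat.find ex ≤ j0 := Nat.find_min' ex ⟨lt _ _ (by omega), c3⟩
  have j3 : lo < pos x t (Nat.find ex) := lt_of_not_ge fun g =>
    Nat.findGreatest_is_greatest (P := fun q => Cut k (al x t q) ∧ pos x t q ≤ lo) j1.1 j2 ⟨j1.2, g⟩
  have j4 : lo + n + 2 ≤ pos x t (Nat.find ex) := le_of_not_gt fun g =>
    hm _ (mem_Ioo.mpr ⟨j3, g⟩) (pat_of_cut j1.2)
  refine ⟨i, Nat.find ex, j1.1, by simp only [length_al]; omega, ?_, ?_, fun q q1 q2 => ?_, ?_, ?_⟩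
  · rw [take_al _ (by omega)]; exact i1.1
  · rw [take_al _ (by omega)]; exact j1.2
  · rw [take_al _ (by omega)]; exact fun g => Nat.find_min ex q2 ⟨q1, g⟩
  · rw [take_al _ (by omega)]; exact i1.2
  · rw [take_al _ (by omega)]; exact j4

/-- All colors in the window have certificates, and they form a word with property `φ`. -/
def Tg (ν : List (Fin 3) → ℝ) (φ : List (Fin 3) → Prop) (T lo : ℤ) (n : ℕ) (x : ℤ → Fin 4) : Prop :=
  ∃ w : List (Fin 3), w.length = n ∧ φ w ∧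
    ∀ (e : ℕ) (h : e < w.length), Cert ν x (lo - T) (lo + n + T) (lo + e) w[e]

theorem Gd.tg {k M n J : ℕ} {lo : ℤ} {x : ℤ → Fin 4} {φ : List (Fin 3) → Prop} (hk : 1 ≤ k)
    (h : Gd k M lo n x) (hf : Fine ν φ k (lo - (19 * k + 342) * M) lo n
      (al x (lo - (19 * k + 342) * M) J) (dg x (lo - (19 * k + 342) * M) J)) :
    Tg ν φ ((19 * k + 342) * M) lo n x := by
  obtain ⟨s, v, j0, s1, s2, s3, c1, c2, c3, c4, c5⟩ := h.cuts
  generalize ((19 * k + 342) * M : ℤ) = T at *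
  generalize ht : lo - T = t at *
  obtain ⟨i, j, ⟨a1, a2, a3, a4, a5, a6, a7⟩, y, y1, y2⟩ := hf
  rw [length_al] at a2
  rw [take_al _ (by omega)] at a3 a4 a6 a7 y2
  replace a5 : ∀ q, i < q → q < j → ¬ Cut k (al x t q) := fun q q1 q2 => by
    have := a5 q q1 q2
    rwa [take_al _ (by omega)] at this
  have lt : ∀ a b, pos x t a < pos x t b → a < b := fun a b h =>
    lt_of_not_ge fun g => by have := pos_mono (x := x) t g; omega
  change pos x t i ≤ lo at a6
  change lo + n + 2 ≤ pos x t j at a7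
  have b1 : v + (k + 1) ≤ i := le_of_not_gt fun g => a5 _ g (lt _ _ (by omega)) c1
  have b2 : j ≤ j0 := le_of_not_gt fun g => a5 _ (lt _ _ (by omega)) g c3
  have b3 := pos_mono (x := x) t b2
  obtain ⟨m, rfl⟩ := Nat.exists_eq_add_of_le a1.le
  obtain ⟨r, rfl⟩ := Nat.exists_eq_add_of_le a2
  rw [Nat.add_sub_cancel_left, al_add, al_add, dg_add, dg_add, List.append_assoc, List.append_assoc,
    List.drop_left' (by simp), List.drop_left' (by simp), List.take_left' (by simp),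
    List.take_left' (by simp)] at y1
  have b4 : pos x t (i + m) = pos x t i + len (al x (pos x t i) m) := by rw [pos_add, pos]
  have b5 : pos x t i = t + len (al x t i) := rfl
  have yl := y1.1
  refine ⟨_, by rw [List.length_take, List.length_drop]; omega, y2, fun e he => ?_⟩
  rw [List.length_take] at he
  obtain ⟨i', rfl⟩ := Nat.exists_eq_add_of_le (show v ≤ i by omega)
  refine ⟨s, i', i' + m, k, s1, by omega, by rw [← s3, ← pos_add, ← add_assoc]; omega, hk,
    FC.bwd s3 (by omega) ?_⟩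
  rw [← add_assoc]
  refine ⟨a1, a3, a4, a5, by omega, y, by rwa [Nat.add_sub_cancel_left], ?_⟩
  rw [← List.getElem?_eq_getElem, List.getElem?_take_of_lt (by omega), List.getElem?_drop]
  congr 1
  omega

open Classical in
theorem tg_prob (hP : Law P (nu 4)) (hQ : Law Q ν) (hg : Gap 2 ν) (hp : ∀ y, ν y ≠ 0 → Pr y)
    (φ : List (Fin 3) → Prop) {k : ℕ} (hk : 1 ≤ k) (M : ℕ) (lo : ℤ) (n : ℕ) :
    (∑ w ∈ W (Fin 3) n, if φ w then ν w else 0) -
        (4 * (1 - nu 4 sw * (1 / 2) ^ (k + 1)) ^ M + (2 * n + 5) * (1 / 2) ^ k) ≤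
      P.real {x | Tg ν φ ((19 * k + 342) * M) lo n x} := by
  have := hP.1
  have h1 := fine_prob hP hQ hg hp φ k (lo - (19 * k + 342) * M) lo n (n + 2 * ((19 * k + 342) * M))
  have h2 := gd_prob hP k M lo n
  have s0 : 0 ≤ ∑ w ∈ W (Fin 3) n, if φ w then ν w else 0 :=
    sum_nonneg fun w _ => by split_ifs; exacts [hQ.nonneg w, le_rfl]
  have s1 : (∑ w ∈ W (Fin 3) n, if φ w then ν w else 0) ≤ 1 := by
    rw [← hQ.sum_one n]
    exact sum_le_sum fun w _ => by split_ifs; exacts [le_rfl, hQ.nonneg w]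
  have sub : ∀ {A B : Set (ℤ → Fin 4)}, (∀ x ∈ A, Gd k M lo n x → x ∈ B) →
      P.real A ≤ P.real B + P.real {x | ¬ Gd k M lo n x} := fun {A B} h =>
    (measureReal_mono fun x hx => (_root_.em (Gd k M lo n x)).imp_left (h x hx)).trans
      (measureReal_union_le _ _)
  have h3 := sub (A := Set.univ) (B := {x | ∃ i j, Adm k (lo - (19 * k + 342) * M) lo n
    (al x (lo - (19 * k + 342) * M) (n + 2 * ((19 * k + 342) * M))) i j}) fun x _ h => h.adm
  have h4 := sub (A := {x | Fine ν φ k (lo - (19 * k + 342) * M) lo n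
      (al x (lo - (19 * k + 342) * M) (n + 2 * ((19 * k + 342) * M)))
      (dg x (lo - (19 * k + 342) * M) (n + 2 * ((19 * k + 342) * M)))})
    (B := {x | Tg ν φ ((19 * k + 342) * M) lo n x}) fun x hx h => h.tg hk hx
  rw [probReal_univ] at h3
  have h5 : P.real {x | ∃ i j, Adm k (lo - (19 * k + 342) * M) lo n
    (al x (lo - (19 * k + 342) * M) (n + 2 * ((19 * k + 342) * M))) i j} ≤ 1 := measureReal_le_one
  have h6 : 0 ≤ P.real {x | ¬ Gd k M lo n x} := measureReal_nonneg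
  have h7 : (0 : ℝ) ≤ (1 / 2) ^ k := by positivity
  nlinarith [mul_le_mul_of_nonneg_left h3 s0, mul_le_mul_of_nonneg_left h5 h7,
    mul_le_mul_of_nonneg_right s1 h6]

theorem exists_small (n : ℕ) {ε : ℝ} (hε : 0 < ε) : ∃ k M : ℕ, 1 ≤ k ∧
    4 * (1 - nu 4 sw * (1 / 2) ^ (k + 1)) ^ M + (2 * n + 5) * (1 / 2) ^ k ≤ ε := by
  obtain ⟨k, hk⟩ := exists_pow_lt_of_lt_one (show 0 < ε / 2 / (2 * n + 5) by positivity)
    (show (1 / 2 : ℝ) < 1 by norm_num)
  have h1 : 0 < nu 4 sw * (1 / 2) ^ (k + 1 + 1) := mul_pos c_pos (by positivity)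
  obtain ⟨M, hM⟩ := exists_pow_lt_of_lt_one (show 0 < ε / 8 by positivity)
    (show 1 - nu 4 sw * (1 / 2) ^ (k + 1 + 1) < 1 by linarith)
  refine ⟨k + 1, M, by omega, ?_⟩
  rw [lt_div_iff₀ (by positivity)] at hk
  have : (1 / 2 : ℝ) ^ (k + 1) ≤ (1 / 2) ^ k :=
    pow_le_pow_of_le_one (by norm_num) (by norm_num) (by omega)
  nlinarith [mul_le_mul_of_nonneg_left this (show (0 : ℝ) ≤ 2 * n + 5 by positivity)]

theorem map_FF (hP : Law P (nu 4)) (hQ : Law Q ν) (hg : Gap 2 ν) (hp : ∀ y, ν y ≠ 0 → Pr y) :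
    P.map (FF ν) = Q := by
  classical
  have := hP.1
  have low : ∀ a l, ν l ≤ P.real {x | wd (FF ν x) a l.length = l} := fun a l => by
    refine le_of_forall_pos_le_add fun ε hε => ?_
    obtain ⟨k, M, hk, h⟩ := exists_small l.length hε
    have h1 := tg_prob hP hQ hg hp (· = l) hk M a l.length
    have h2 : P.real {x | Tg ν (· = l) ((19 * k + 342) * M) a l.length x} ≤
        P.real {x | wd (FF ν x) a l.length = l} := by
      refine measureReal_mono ?_
      rintro x ⟨w, -, rfl, hw⟩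
      exact List.ext_getElem (by simp) fun i a b => by rw [getElem_wd, (hw i b).FF_eq]
    rw [sum_eq_single_of_mem l (mem_W.mpr rfl) fun b _ hb => by simp [hb], if_pos rfl] at h1
    linarith
  have hm := Measure.isProbabilityMeasure_map (μ := P) (meas_FF ν).aemeasurable
  refine Law.unique ⟨hm, fun a l => ?_⟩ hQ
  have e : ∀ n (l : List (Fin 3)), (P.map (FF ν)).real {y | wd y a n = l} =
      P.real {x | wd (FF ν x) a n = l} := fun n l =>
    map_measureReal_apply (meas_FF ν) (meas_wd (· = l) _ _)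
  have tot : ∑ w ∈ W (Fin 3) l.length, (P.map (FF ν)).real {y | wd y a l.length = w} = 1 := by
    rw [← measureReal_biUnion_finset, ← probReal_univ (μ := P.map (FF ν))]
    · congr 1
      ext y
      simp [mem_W]
    · intro l _ l' _ hne
      exact Set.disjoint_left.mpr fun x hx hx' => hne (hx.symm.trans hx')
    · exact fun l _ => meas_wd (· = l) a _
  refine ((sum_eq_sum_iff_of_le (s := W (Fin 3) l.length) (f := ν) fun w hw => ?_).mp
    (by rw [tot, hQ.sum_one]) l (mem_W.mpr rfl)).symm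
  rw [e, ← mem_W.mp hw]
  exact low a w

theorem tail_le (hP : Law P (nu 4)) (hQ : Law Q ν) (hg : Gap 2 ν) (hp : ∀ y, ν y ≠ 0 → Pr y)
    {k : ℕ} (hk : 1 ≤ k) (M r : ℕ) (hr : (19 * k + 342) * M ≤ r) :
    P.real {x | ¬ ∀ x' : ℤ → Fin 4, (∀ i : ℤ, |i| ≤ r → x' i = x i) → FF ν x' 0 = FF ν x 0} ≤
      4 * (1 - nu 4 sw * (1 / 2) ^ (k + 1)) ^ M + 7 * (1 / 2) ^ k := by
  have := hP.1
  have h1 := tg_prob hP hQ hg hp (fun _ => True) hk M 0 1
  simp only [if_true, hQ.sum_one] at h1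
  have hr' : ((19 * k + 342) * M : ℤ) ≤ r := by exact_mod_cast hr
  have d : Dep {x | Tg ν (fun _ => True) ((19 * k + 342) * M) 0 1 x} (0 - (19 * k + 342) * M)
      (0 + (1 : ℕ) + (19 * k + 342) * M) := fun x x' H ⟨w, w1, w2, w3⟩ =>
    ⟨w, w1, w2, fun e he => dep_cert x x' H (w3 e he)⟩
  have h2 : {x | ¬ ∀ x' : ℤ → Fin 4, (∀ i : ℤ, |i| ≤ r → x' i = x i) → FF ν x' 0 = FF ν x 0} ⊆
      {x | Tg ν (fun _ => True) ((19 * k + 342) * M) 0 1 x}ᶜ := by
    rintro x hx ⟨w, w1, -, w3⟩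
    refine hx fun x' H => ?_
    have c := w3 0 (by omega)
    have c' := dep_cert x x' (fun i a b => (H i (abs_le.mpr ⟨by omega, by push_cast at b; omega⟩)).symm) c
    simp only [Nat.cast_zero, add_zero] at c c'
    rw [c.FF_eq, Cert.FF_eq c']
  refine (measureReal_mono h2).trans ?_
  rw [probReal_compl_eq_one_sub d.meas]
  push_cast at h1
  linarith

theorem exists_par {c : ℝ} (c0 : 0 < c) (c1 : c ≤ 1) {r : ℕ} (hr : 2 ≤ r)
    (hz : 2 ≤ c * r / (2400 * Real.log r ^ 2)) : ∃ k M : ℕ, 1 ≤ k ∧ (19 * k + 342) * M ≤ r ∧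
      4 * (1 - c * (1 / 2) ^ (k + 1)) ^ M + 7 * (1 / 2) ^ k ≤
        (12 + 33600 / c) * Real.log r ^ 2 / r := by
  have r2 : (2 : ℝ) ≤ r := by exact_mod_cast hr
  have L0 : 0.69 < Real.log r :=
    lt_of_lt_of_le (by linarith [Real.log_two_gt_d9]) (Real.log_le_log (by norm_num) r2)
  set L := Real.log r with hL
  set Z := c * r / (2400 * L ^ 2) with hZ
  have eZ : Z * (2400 * L ^ 2) = c * r := div_mul_cancel₀ _ (by positivity)
  obtain ⟨k, k1, k2⟩ := exists_nat_pow_near (x := Z) (y := 2) (by linarith) (by norm_num)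
  have k0 : 1 ≤ k := by
    rcases k with _ | k
    · norm_num at k2; linarith
    · omega
  have L2 : 0.47 ≤ L ^ 2 := by nlinarith
  have Zr : Z ≤ r := by nlinarith [mul_le_mul_of_nonneg_right c1 (show (0 : ℝ) ≤ r by linarith)]
  have kL : (k : ℝ) * 0.69 ≤ L := by
    have := Real.log_le_log (by positivity) (k1.trans Zr)
    rw [Real.log_pow] at this
    nlinarith [Real.log_two_gt_d9, (Nat.cast_nonneg k : (0 : ℝ) ≤ k)]
  have D1 : ((19 * k + 342 : ℕ) : ℝ) ≤ 600 * L := by push_cast; linarith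
  refine ⟨k, r / (19 * k + 342), k0, Nat.mul_div_le _ _, ?_⟩
  set M := r / (19 * k + 342) with hM
  have M1 : (r : ℝ) < (19 * k + 342 : ℕ) * (M + 1) := by
    exact_mod_cast Nat.lt_mul_div_succ r (by omega)
  have M2 : (r : ℝ) ≤ 600 * L * (M + 1) := M1.le.trans (by gcongr)
  have M3 : (r : ℝ) ≤ 1200 * L * M := by nlinarith
  have p1 : (1 / 2 : ℝ) ^ k * Z ≤ 2 := by
    rw [one_div, inv_pow, inv_mul_le_iff₀ (by positivity)]
    rw [pow_succ] at k2
    exact k2.le
  have p2 : 1 ≤ (1 / 2 : ℝ) ^ (k + 1) * (2 * Z) := by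
    rw [one_div, inv_pow, le_inv_mul_iff₀ (by positivity), pow_succ]
    linarith
  have p3 : (1 / 2 : ℝ) ^ (k + 1) ≤ 1 := pow_le_one₀ (by norm_num) (by norm_num)
  have p0 : (0 : ℝ) < (1 / 2) ^ (k + 1) := by positivity
  set p := c * (1 / 2 : ℝ) ^ (k + 1) with hp
  have q1 : L ≤ p * M := by
    have a1 : c * r ≤ p * (2 * Z) * r := by
      rw [hp, mul_assoc c]
      gcongr
      exact le_mul_of_one_le_right c0.le p2
    have a2 : p * (2 * Z) * r ≤ p * (2 * Z) * (1200 * L * M) := by gcongr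
    have a3 : (2400 * Z * L) * L ≤ (2400 * Z * L) * (p * M) := by nlinarith
    exact le_of_mul_le_mul_left a3 (by positivity)
  have q2 : (1 - p) ^ M ≤ 1 / r := by
    calc (1 - p) ^ M ≤ Real.exp (-p) ^ M :=
          pow_le_pow_left₀ (by nlinarith) (by linarith [Real.add_one_le_exp (-p)]) _
      _ = Real.exp (-(p * M)) := by rw [← Real.exp_nat_mul]; ring_nf
      _ ≤ Real.exp (-L) := by gcongr
      _ = 1 / r := by rw [Real.exp_neg, hL, Real.exp_log (by positivity), one_div]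
  have q3 : (1 / 2 : ℝ) ^ k ≤ 4800 / c * L ^ 2 / r := by
    rw [le_div_iff₀ (by positivity), div_mul_eq_mul_div, le_div_iff₀ c0]
    nlinarith [mul_le_mul_of_nonneg_right p1 (show 0 ≤ 2400 * L ^ 2 by positivity)]
  have q4 : 1 / (r : ℝ) ≤ 3 * L ^ 2 / r := by gcongr; nlinarith
  calc _ ≤ 4 * (3 * L ^ 2 / r) + 7 * (4800 / c * L ^ 2 / r) := by gcongr; exact q2.trans q4
    _ = _ := by ring

theorem tail (hP : Law P (nu 4)) (hQ : Law Q ν) (hg : Gap 2 ν) (hp : ∀ y, ν y ≠ 0 → Pr y)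
    (r : ℕ) (hr : 2 ≤ r) :
    P.real {x | ¬ ∀ x' : ℤ → Fin 4, (∀ i : ℤ, |i| ≤ r → x' i = x i) → FF ν x' 0 = FF ν x 0} ≤
      (12 + 33600 / nu 4 sw) * Real.log r ^ 2 / r := by
  have := hP.1
  by_cases hz : 2 ≤ nu 4 sw * r / (2400 * Real.log r ^ 2)
  · obtain ⟨k, M, h1, h2, h3⟩ := exists_par c_pos (c_le hP) hr hz
    exact (tail_le hP hQ hg hp h1 M r h2).trans h3
  · have r2 : (2 : ℝ) ≤ r := by exact_mod_cast hr
    have L0 : 0 < Real.log r := Real.log_pos (by linarith)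
    have c0 := c_pos
    rw [not_le, div_lt_iff₀ (by positivity)] at hz
    refine measureReal_le_one.trans ?_
    rw [le_div_iff₀ (by positivity)]
    have : (r : ℝ) ≤ 33600 / nu 4 sw * Real.log r ^ 2 := by
      rw [div_mul_eq_mul_div, le_div_iff₀ c0]
      nlinarith [sq_nonneg (Real.log r)]
    nlinarith [sq_nonneg (Real.log r)]

theorem ae_fin (hP : Law P (nu 4)) (hQ : Law Q ν) (hg : Gap 2 ν) (hp : ∀ y, ν y ≠ 0 → Pr y) :
    ∀ᵐ x ∂P, ∃ R : ℕ, ∀ x' : ℤ → Fin 4, (∀ i : ℤ, |i| ≤ R → x' i = x i) → FF ν x' 0 = FF ν x 0 := by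
  have := hP.1
  rw [ae_iff, ← measureReal_eq_zero_iff]
  refine le_antisymm (le_of_forall_pos_le_add fun ε hε => ?_) measureReal_nonneg
  obtain ⟨k, M, hk, h⟩ := exists_small 1 hε
  have h1 := tail_le hP hQ hg hp hk M _ le_rfl
  refine le_trans (measureReal_mono ?_) (h1.trans ?_)
  · exact fun x hx h => hx ⟨_, h⟩
  · push_cast at h
    linarith

end Pool.Agent.P.MP_f3d782_pr.Q2
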